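import Pool.Agent.H22.DH.Df
import Pool.Agent.H22.D.ThmA

/-!
# The class is closed (module CLS)

`hb_closed`: for `H ∈ F` the set of the `y` with `OccI H y` is open (union over the injections `f` of the
intersections of the clopen sets `{y | y (f u) (f v) = H.2 u v}`), `NoK t (GA y)` is the intersection over the
finite sets `A`, `B` with `t` elements of the union over `a ∈ A`, `b ∈ B` of clopen sets. `hb_inv`: as `fb_inv`
(`ThmA.lean`). `sv_hb`: as `sv_iff`.
-/

set_option autoImplicit false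

namespace Pool.H22.DH

open Set Function Pool.H22.D Pool.H22.DI Pool.H63.MQ

variable {m t : ℕ} {F : Set (FS m)}

private theorem cl_meas {X : Type} [TopologicalSpace X] {L : Set X} (h : IsClosed L) :
    @MeasurableSet X (borel X) L := by
  borelize X
  exact h.measurableSet

private theorem cl_cont (u v : ℕ) : Continuous (fun y : Mx (Fin m → Bool) => y u v) :=
  (continuous_apply v).comp (continuous_apply u)

private theorem cl_occ (H : FS m) : IsOpen {y : Mx (Fin m → Bool) | OccI H y} := by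
  have h1 : {y : Mx (Fin m → Bool) | OccI H y} = ⋃ (f : Fin H.1 → ℕ) (_ : Injective f),
      ⋂ (u : Fin H.1) (v : Fin H.1),
        (fun y : Mx (Fin m → Bool) => y (f u) (f v)) ⁻¹' {H.2 u v} := by
    ext y
    simp only [OccI, mem_setOf_eq, mem_iUnion, mem_iInter, exists_prop, mem_preimage, mem_singleton_iff]
  rw [h1]
  refine isOpen_iUnion fun f => isOpen_iUnion fun _ => isOpen_iInter_of_finite fun u =>
    isOpen_iInter_of_finite fun v => ?_
  exact (isOpen_discrete _).preimage (cl_cont _ _)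

private theorem cl_adj (u v : ℕ) : IsClosed {y : Mx (Fin m → Bool) | ¬ (GA y).Adj u v} := by
  have h1 : {y : Mx (Fin m → Bool) | ¬ (GA y).Adj u v} =
      (fun y : Mx (Fin m → Bool) => (y u v, y v u)) ⁻¹'
        {p | ¬ (u ≠ v ∧ ∃ i, p.1 i = true ∨ p.2 i = true)} := rfl
  rw [h1]
  exact (isClosed_discrete _).preimage ((cl_cont u v).prodMk (cl_cont v u))

private theorem cl_nok (t : ℕ) : IsClosed {y : Mx (Fin m → Bool) | NoK t (GA y)} := by
  have h1 : {y : Mx (Fin m → Bool) | NoK t (GA y)} = ⋂ (A : Finset ℕ) (B : Finset ℕ)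
      (_ : A.card = t) (_ : B.card = t), ⋃ a ∈ A, ⋃ b ∈ B,
        {y : Mx (Fin m → Bool) | ¬ (GA y).Adj a b} := by
    ext y
    simp only [NoK, mem_setOf_eq, mem_iUnion, mem_iInter, exists_prop]
  rw [h1]
  refine isClosed_iInter fun A => isClosed_iInter fun B => isClosed_iInter fun _ =>
    isClosed_iInter fun _ => ?_
  exact isClosed_biUnion_finset fun a _ => isClosed_biUnion_finset fun b _ => cl_adj a b

theorem hb_closed (t : ℕ) (F : Set (FS m)) : IsClosed (Hb t F) := by
  have h1 : Hb t F = {y : Mx (Fin m → Bool) | NoK t (GA y)} ∩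
      ⋂ (H : FS m) (_ : H ∈ F), {y : Mx (Fin m → Bool) | OccI H y}ᶜ := by
    ext y
    simp only [Hb, mem_setOf_eq, mem_inter_iff, mem_iInter, mem_compl_iff]
  rw [h1]
  exact (cl_nok t).inter (isClosed_iInter fun H => isClosed_iInter fun _ => (cl_occ H).isClosed_compl)

theorem hb_inv {x y : Mx (Fin m → Bool)} (h : IsoM x y) (hx : x ∈ Hb t F) : y ∈ Hb t F := by
  obtain ⟨σ, hσ⟩ := h
  have hσ' : ∀ u v, y u v = x (σ.symm u) (σ.symm v) := by
    intro u v
    have h1 := hσ (σ.symm u) (σ.symm v)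
    rw [Equiv.apply_symm_apply, Equiv.apply_symm_apply] at h1
    exact h1
  refine ⟨fun A B hA hB => ?_, fun H hH => ?_⟩
  · obtain ⟨a, ha, b, hb, hab⟩ := hx.1 (A.map σ.symm.toEmbedding) (B.map σ.symm.toEmbedding)
      (by rw [Finset.card_map]; exact hA) (by rw [Finset.card_map]; exact hB)
    rw [Finset.mem_map_equiv, Equiv.symm_symm] at ha hb
    refine ⟨σ a, ha, σ b, hb, fun h1 => hab ⟨fun h2 => h1.1 (congrArg σ h2), ?_⟩⟩
    obtain ⟨i, hi⟩ := h1.2
    rw [hσ', hσ', Equiv.symm_apply_apply, Equiv.symm_apply_apply] at hi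
    exact ⟨i, hi⟩
  · rintro ⟨f, hf, hfH⟩
    refine hx.2 H hH ⟨fun u => σ.symm (f u), σ.symm.injective.comp hf, fun u v => ?_⟩
    rw [← hσ']
    exact hfH u v

theorem sv_hb (t : ℕ) (F : Set (FS m)) : SV (Hb t F) ↔ Dich IsoM (Hb t F) := by
  constructor
  · intro h B hB hinv
    have hm : @MeasurableSet (Mx (Fin m → Bool)) (borel (Mx (Fin m → Bool))) (B ∩ Hb t F) :=
      @MeasurableSet.inter _ (borel _) _ _ hB (cl_meas (hb_closed t F))
    rcases h (B ∩ Hb t F) inter_subset_right hm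
      (fun x y hxy hx => ⟨hinv x y hxy hx.1, hb_inv hxy hx.2⟩) with ⟨D, hD, h1⟩ | ⟨P, h1, h2, h3, h4⟩
    · exact Or.inl ⟨D, hD, fun x hx hxK => h1 x ⟨hx, hxK⟩⟩
    · exact Or.inr ⟨P, h1, h2, h3.trans inter_subset_left, h4⟩
  · intro h B hBC hB hinv
    rcases h B hB hinv with ⟨D, hD, h1⟩ | h1
    · exact Or.inl ⟨D, hD, fun x hx => h1 x hx (hBC hx)⟩
    · exact Or.inr h1

end Pool.H22.DH
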