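import Pool.Agent.H22.DH.CbA
import Pool.Agent.H17.HS.Rams

/-!
# The case of unbounded distances (module CB)

`pi_of_nsc`: enumerate (a part of) `S` by an injection, Ramsey for pairs `i < j` with the colour: a pair
`(P, P')` as in `exists_pair` (`Pool.H17.HS.ramsey`), `e 0, e 1, ..` the homogeneous subsequence. `S' = {e i | 1 ≤ i}`.
`out`: the pair `(e i, e j)`, `j > i`, `e j ∉ Y`, for the finite set `Y` without `e i`; `inn`: the pair `(e (i - 1), e i)`
backwards, for the finite set `Y` without `e i`, `e (i - 1)` (the path has more than `2 k` steps and is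
injective, so its first `k` points from `e i` on do not reach `e (i - 1)`). Let `Y₀` be the finite set of
`exists_facI`. Take `i < j`, `1 ≤ i`, with `e i, e j ∉ Y₀` and an induced path `p` from `e i` to `e j` outside `Y₀` with
`n > 2 k` steps and the words `P`, `P'`; `w`, `d` = its letters and types, `ℓ = n`. `dl`: the type of `e i` is the type
number `0` of `P` and of `P'` since `1 ≤ i`; the same for `e j`. `fac`: `exists_facI` for the parts of `p`
(`w`, `d` may be anything after `ℓ`).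
-/

set_option autoImplicit false

namespace Pool.H22.DH

open Set Function Pool.H22.D Pool.H22.DI

variable {m k : ℕ} {y : Mx (Fin m → Bool)} {S : Set ℕ}

private theorem cb_rd {q p' : ℕ → ℕ} (h : wt y k p' = wt y k q) :
    Rd y (fun j => (y (q j) (q (j + 1)), y (q (j + 1)) (q j))) (fun j => y (q j) (q j)) k p' := by
  refine ⟨fun j hj => ?_, fun j hj => ?_⟩
  · have h1 := congrFun (congrArg Prod.fst h) ⟨j, hj⟩
    have h2 : (y (p' j) (p' (j + 1)), y (p' (j + 1)) (p' j)) = (y (q j) (q (j + 1)), y (q (j + 1)) (q j)) := h1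
    exact ⟨congrArg Prod.fst h2, congrArg Prod.snd h2⟩
  · exact congrFun (congrArg Prod.snd h) ⟨j, Nat.lt_succ_of_le hj⟩

private theorem cb_shift {G : SimpleGraph ℕ} {n i : ℕ} {p : ℕ → ℕ} (h : IPth G n p) (hi : i + k ≤ n) :
    IPth G k (fun l => p (i + l)) := by
  refine ⟨fun a ha b hb hab => ?_, fun a ha b hb => ?_⟩
  · have ha' : a ≤ k := ha
    have hb' : b ≤ k := hb
    have h1 := h.inj (show i + a ∈ Iic n from by simp only [mem_Iic]; omega)
      (show i + b ∈ Iic n from by simp only [mem_Iic]; omega) hab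
    omega
  · have h1 := h.adj (i + a) (by omega) (i + b) (by omega)
    rw [h1]
    omega

private theorem cb_rev {G : SimpleGraph ℕ} {n : ℕ} {p : ℕ → ℕ} (h : IPth G n p) :
    IPth G n (fun l => p (n - l)) := by
  refine ⟨fun a ha b hb hab => ?_, fun a ha b hb => ?_⟩
  · have ha' : a ≤ n := ha
    have hb' : b ≤ n := hb
    have h1 := h.inj (show n - a ∈ Iic n from by simp only [mem_Iic]; omega)
      (show n - b ∈ Iic n from by simp only [mem_Iic]; omega) hab
    omega
  · have h1 := h.adj (n - a) (by omega) (n - b) (by omega)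
    rw [h1]
    omega

/-- the pair `(P, P')` is good for `u`, `v` -/
private def Gd (y : Mx (Fin m → Bool)) (k u v : ℕ)
    (W : ((Fin k → Ltr m) × (Fin (k + 1) → Tv m)) × ((Fin k → Ltr m) × (Fin (k + 1) → Tv m))) : Prop :=
  ∀ Y : Set ℕ, Y.Finite → u ∉ Y → v ∉ Y →
    ∃ n p, 2 * k < n ∧ IPth (GA y) n p ∧ p 0 = u ∧ p n = v ∧ (∀ j ≤ n, p j ∉ Y) ∧
      wt y k p = W.1 ∧ wt y k (fun j => p (n - j)) = W.2

private theorem cb_seq (hS : InsG (GA y) S) (hi : S.Infinite)
    (h : ∀ u ∈ S, ∀ v ∈ S, u ≠ v → ¬ Sc (GA y) (2 * k) u v) :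
    ∃ (e : ℕ → ℕ) (W : ((Fin k → Ltr m) × (Fin (k + 1) → Tv m)) × ((Fin k → Ltr m) × (Fin (k + 1) → Tv m))),
      Injective e ∧ ∀ i j, i < j → Gd y k (e i) (e j) W := by
  classical
  obtain ⟨f, hf⟩ : ∃ f : ℕ → ℕ, Injective f ∧ ∀ i, f i ∈ S :=
    ⟨fun i => (hi.natEmbedding S i : ℕ), fun a b hab => (hi.natEmbedding S).injective (Subtype.ext hab),
      fun i => (hi.natEmbedding S i).2⟩
  have key : ∀ i j : ℕ, ∃ W : ((Fin k → Ltr m) × (Fin (k + 1) → Tv m)) × ((Fin k → Ltr m) × (Fin (k + 1) → Tv m)),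
      i ≠ j → Gd y k (f i) (f j) W := by
    intro i j
    by_cases hij : i = j
    · exact ⟨((fun _ => (fun _ => false, fun _ => false), fun _ _ => false),
        (fun _ => (fun _ => false, fun _ => false), fun _ _ => false)), fun h => absurd hij h⟩
    · have hne : f i ≠ f j := fun h => hij (hf.1 h)
      obtain ⟨P, P', hP⟩ := exists_pair hS (hf.2 i) (hf.2 j) hne (h _ (hf.2 i) _ (hf.2 j) hne)
      exact ⟨(P, P'), fun _ => hP⟩
  choose c hc using key
  obtain ⟨φ, W, hφ, hW⟩ := Pool.H17.HS.ramsey c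
  refine ⟨fun i => f (φ i), W, hf.1.comp hφ.injective, fun i j hij => ?_⟩
  have h1 := hc (φ i) (φ j) (hφ hij).ne
  rw [hW i j hij] at h1
  exact h1

private theorem cb_avoid {e : ℕ → ℕ} (he : Injective e) {Y : Set ℕ} (hY : Y.Finite) :
    ∃ N, ∀ i, N ≤ i → e i ∉ Y := by
  have h1 : {i | e i ∈ Y}.Finite := hY.preimage he.injOn
  obtain ⟨N, hN⟩ := h1.bddAbove
  exact ⟨N + 1, fun i hi h => absurd (hN h) (by omega)⟩

private theorem cb_diff {Y Z : Set ℕ} {a : ℕ} (h : a ∉ Y \ Z) (hZ : a ∉ Z) : a ∉ Y := fun hY => h ⟨hY, hZ⟩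

theorem pi_of_nsc (hS : InsG (GA y) S) (hi : S.Infinite)
    (h : ∀ u ∈ S, ∀ v ∈ S, u ≠ v → ¬ Sc (GA y) (2 * k) u v) : ∃ S' ℓ w d, PI y S' k ℓ w d := by
  obtain ⟨e, W, he, hW⟩ := cb_seq hS hi h
  obtain ⟨Y₀, hY₀, hfac⟩ := exists_facI y k
  obtain ⟨N, hN⟩ := cb_avoid he hY₀
  obtain ⟨n, p, hn, hp, hp0, hpn, hpY, hP, hP'⟩ := hW (N + 1) (N + 2) (by omega) Y₀ hY₀ (hN _ (by omega))
    (hN _ (by omega))
  have hty : ∀ i, y (e i) (e i) = W.1.2 0 := by
    intro i
    obtain ⟨n', p', -, -, h1, -, -, h2, -⟩ := hW i (i + 1) (by omega) ∅ finite_empty (by simp) (by simp)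
    rw [← h2, ← h1]
    rfl
  refine ⟨e '' Ici 1, n, fun j => (y (p j) (p (j + 1)), y (p (j + 1)) (p j)), fun j => y (p j) (p j), ?_⟩
  refine ⟨hn, (Set.Ici_infinite 1).image he.injOn, ?_, ?_, ?_, ?_, ?_⟩
  · change y (p n) (p n) = y (p 0) (p 0)
    rw [hpn, hp0, hty, hty]
  · intro j hj
    exact ((hp.adj j hj.le (j + 1) hj).2 (Or.inl rfl)).2
  · rintro _ ⟨i, hi1, rfl⟩ Y hY
    obtain ⟨N', hN'⟩ := cb_avoid he hY
    obtain ⟨n', p', hn', hp', h0, -, h1, h2, -⟩ := hW i (i + 1 + N') (by omega) (Y \ {e i}) (hY.subset diff_subset)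
      (fun h => h.2 rfl) (fun h => hN' _ (by omega) h.1)
    refine ⟨p', ipth_trunc hp' (by omega), h0, fun j hj hj0 => cb_diff (h1 j (by omega)) ?_, ?_⟩
    · intro h3
      have h4 : p' j = p' 0 := by rw [h0]; exact h3
      have h5 := hp'.inj (show j ∈ Iic n' from by simp only [mem_Iic]; omega)
        (show 0 ∈ Iic n' from by simp only [mem_Iic]; omega) h4
      omega
    · exact cb_rd (h2.trans hP.symm)
  · rintro _ ⟨i, hi1, rfl⟩ Y hY
    have hi2 : 1 ≤ i := hi1
    obtain ⟨n', p', hn', hp', h0, hn0, h1, -, h2⟩ := hW (i - 1) i (by omega) (Y \ {e i, e (i - 1)})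
      (hY.subset diff_subset) (fun h => h.2 (Or.inr rfl)) (fun h => h.2 (Or.inl rfl))
    refine ⟨fun l => p' (n' - l), ipth_trunc (cb_rev hp') (by omega), ?_,
      fun j hj hj0 => cb_diff (h1 (n' - j) (by omega)) ?_, ?_⟩
    · change p' (n' - 0) = e i
      rw [Nat.sub_zero, hn0]
    · rintro (h3 | h3)
      · have h4 : p' (n' - j) = p' n' := by rw [hn0]; exact h3
        have h5 := hp'.inj (show n' - j ∈ Iic n' from by simp only [mem_Iic]; omega)
          (show n' ∈ Iic n' from by simp only [mem_Iic]; omega) h4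
        omega
      · have h4 : p' (n' - j) = p' 0 := by rw [h0]; exact h3
        have h5 := hp'.inj (show n' - j ∈ Iic n' from by simp only [mem_Iic]; omega)
          (show 0 ∈ Iic n' from by simp only [mem_Iic]; omega) h4
        omega
    · have h3 := cb_rd (h2.trans hP'.symm)
      refine ⟨fun j hj => ?_, fun j hj => h3.2 j hj⟩
      have h4 := h3.1 j hj
      have e1 : n - 1 - j = n - (j + 1) := by omega
      have e2 : n - 1 - j + 1 = n - j := by omega
      change y (p' (n' - j)) (p' (n' - (j + 1))) = y (p (n - 1 - j + 1)) (p (n - 1 - j)) ∧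
        y (p' (n' - (j + 1))) (p' (n' - j)) = y (p (n - 1 - j)) (p (n - 1 - j + 1))
      rw [e2, e1]
      exact h4
  · intro i hik Y hY
    obtain ⟨p', h1, h2, h3⟩ := hfac (fun l => p (i + l)) (cb_shift hp hik) (fun j hj => hpY _ (by omega)) Y hY
    exact ⟨p', h1, h2, cb_rd h3⟩

end Pool.H22.DH
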