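import Pool.Agent.H22.DH.Za
import Pool.Agent.H22.DH.Cb
import Pool.Agent.H22.DI.Leg

/-!
# Words in structures which are not sparse (module EX)

As `exists_legs` in `DI/Leg.lean`: enumerate (a part of) `S` injectively, Ramsey for pairs, the colour of `(i, j)` is
the least `r ≤ 2 k` with `Sc (GA y) r (e i) (e j)`, or `2 k + 1` if there is none; by symmetry (`sc_symm`) the colour
does not depend on the order. Colour `2 k + 1`: `pi_of_nsc`. Colour `0`: impossible. Colour `r ≥ 1`: `pi_of_sc`.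
-/

set_option autoImplicit false

namespace Pool.H22.DH

open Set Function Pool.H22.D Pool.H22.DI

variable {m t : ℕ} {y : Mx (Fin m → Bool)}

private theorem ex_pairs {C : Type} [Finite C] (f : ℕ → ℕ → C) :
    ∃ (φ : ℕ → ℕ) (k : C), StrictMono φ ∧ ∀ i j, i < j → f (φ i) (φ j) = k := by
  obtain ⟨φ, hφ, h⟩ := Pool.H17.TA.ramseyN 2 (fun t : Fin 2 → ℕ => f (t 0) (t 1))
  refine ⟨φ, f (φ 0) (φ 1), hφ, fun i j hij => ?_⟩
  have h1 : StrictMono ![i, j] := by
    intro a b hab
    fin_cases a <;> fin_cases b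
    · exact absurd hab (lt_irrefl _)
    · simpa using hij
    · exact absurd hab (by decide)
    · exact absurd hab (lt_irrefl _)
  have h2 : StrictMono ![0, 1] := by
    intro a b hab
    fin_cases a <;> fin_cases b
    · exact absurd hab (lt_irrefl _)
    · simp
    · exact absurd hab (by decide)
    · exact absurd hab (lt_irrefl _)
  have h3 := h ![i, j] ![0, 1] h1 h2
  simpa using h3

theorem exists_pi (hK : NoK t (GA y)) (hy : ¬ Sparse y) (k : ℕ) : ∃ S ℓ w d, PI y S k ℓ w d := by
  classical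
  unfold Sparse at hy
  push Not at hy
  obtain ⟨S, hS', hi⟩ := hy
  have hS : InsG (GA y) S := hS'
  have hi : S.Infinite := hi
  have e := hi.natEmbedding
  have hsubI : ∀ {S' : Set ℕ}, S' ⊆ S → InsG (GA y) S' := fun h u hu v hv => hS u (h hu) v (h hv)
  -- the colouring
  let col : ℕ → ℕ → ℕ := fun u v => if h : ∃ r, r ≤ 2 * k ∧ Sc (GA y) r u v then Nat.find h else 2 * k + 1
  have hcol : ∀ u v, col u v < 2 * k + 2 := by
    intro u v
    show (if h : ∃ r, r ≤ 2 * k ∧ Sc (GA y) r u v then Nat.find h else 2 * k + 1) < 2 * k + 2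
    split_ifs with h
    · have := (Nat.find_spec h).1
      omega
    · omega
  obtain ⟨φ, c, hφ, hk⟩ := ex_pairs (C := Fin (2 * k + 2)) fun i j =>
    ⟨col (e i).1 (e j).1, hcol _ _⟩
  let s0 : ℕ → ℕ := fun i => (e (φ i)).1
  have hs0 : Injective s0 := fun i j hij => hφ.injective (e.injective (Subtype.ext hij))
  have hs0S : ∀ i, s0 i ∈ S := fun i => (e (φ i)).2
  have hk' : ∀ i j, i < j → col (s0 i) (s0 j) = c.1 := fun i j hij => congrArg Fin.val (hk i j hij)
  have hcinf : (range s0).Infinite := infinite_range_of_injective hs0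
  have hsub : range s0 ⊆ S := by
    rintro _ ⟨i, rfl⟩
    exact hs0S i
  by_cases hkn : c.1 = 2 * k + 1
  · -- far apart
    have hno : ∀ i j, i < j → ¬ ∃ r, r ≤ 2 * k ∧ Sc (GA y) r (s0 i) (s0 j) := by
      intro i j hij h
      have h1 := hk' i j hij
      have h2 : col (s0 i) (s0 j) = Nat.find h := dif_pos h
      have h3 := (Nat.find_spec h).1
      omega
    refine pi_of_nsc (hsubI hsub) hcinf ?_
    rintro _ ⟨i, rfl⟩ _ ⟨j, rfl⟩ hne hsc
    have hij : i ≠ j := fun h => hne (by rw [h])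
    rcases lt_or_gt_of_ne hij with h | h
    · exact hno i j h ⟨2 * k, le_rfl, hsc⟩
    · exact hno j i h ⟨2 * k, le_rfl, sc_symm hsc⟩
  · have hex : ∀ i j, i < j → Sc (GA y) c.1 (s0 i) (s0 j) ∧ ∀ m < c.1, ¬ Sc (GA y) m (s0 i) (s0 j) := by
      intro i j hij
      have h1 := hk' i j hij
      by_cases h : ∃ r, r ≤ 2 * k ∧ Sc (GA y) r (s0 i) (s0 j)
      · have h2 : col (s0 i) (s0 j) = Nat.find h := dif_pos h
        have h3 : Nat.find h = c.1 := by omega
        refine ⟨?_, fun m hm hsc => ?_⟩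
        · rw [← h3]
          exact (Nat.find_spec h).2
        · have h4 := (Nat.find_spec h).1
          exact Nat.find_min h (by omega : m < Nat.find h) ⟨by omega, hsc⟩
      · have h2 : col (s0 i) (s0 j) = 2 * k + 1 := dif_neg h
        omega
    rcases Nat.eq_zero_or_pos c.1 with hk0 | hk0
    · exfalso
      have h1 := (hex 0 1 zero_lt_one).1
      rw [hk0] at h1
      obtain ⟨m, hm, p, h2, h3, -, -⟩ := h1 ∅ finite_empty (notMem_empty _) (notMem_empty _)
      have h4 : m = 0 := by omega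
      rw [h4, h2] at h3
      exact zero_ne_one (hs0 h3)
    · refine pi_of_sc (r := c.1) hK hcinf hk0 ?_ k
      rintro _ ⟨i, rfl⟩ _ ⟨j, rfl⟩ hne
      have hij : i ≠ j := fun h => hne (by rw [h])
      rcases lt_or_gt_of_ne hij with h | h
      · exact ⟨(hex i j h).1, (hex i j h).2 _ (by omega)⟩
      · exact ⟨sc_symm (hex j i h).1, fun h5 => (hex j i h).2 _ (by omega : c.1 - 1 < c.1) (sc_symm h5)⟩

end Pool.H22.DH
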