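import Pool.Agent.H22.DH.Df
import Pool.Agent.H22.D.Wc
import Pool.Agent.H22.D.Sa

/-!
# The coding with types (module LBD)

`labD_ok`: all rules from `labW_ok` (`act`, `qa`, `el`, `N`, `Ψ` are the same; `Val` is the same); `δ_act`, `contδ` are clear;
`rcv`: outside of the diagonal `(labD ℓ w d).mat x g` is `(labW ℓ w).mat x g`, and the latter is constant on the
diagonal, so `τ` is an isomorphism for `labW` and `(labW_ok hw hℓ).rcv` applies. `q1_of_labD`: as `dich_grd`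
(`Wc.lean`, with `Lab.dich`) and `dich_str` (`Sa.lean`).
-/

set_option autoImplicit false

namespace Pool.H22.DH

open Set Function Pool.H22.D Pool.H22.DI Pool.H63.MQ

variable {m ℓ : ℕ} {w : ℕ → Ltr m} {d : ℕ → Tv m}

private theorem mat_W (x : Mx ℕ) (g : ℕ → Qw) (n n' : ℕ) :
    (labW ℓ w).mat x g n n' = if n = n' then (fun _ => false) else psw ℓ w (g n) (g n') := rfl

private theorem mat_D (x : Mx ℕ) (g : ℕ → Qw) {n n' : ℕ} (h : n ≠ n') :
    (labD ℓ w d).mat x g n n' = psw ℓ w (g n) (g n') := if_neg h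

theorem labD_ok (hw : ∀ j < ℓ, Nz (w j)) (hℓ : 2 ≤ ℓ) : (labD ℓ w d).Ok Grd where
  act_one := (labW_ok hw hℓ).act_one
  act_mul := (labW_ok hw hℓ).act_mul
  qa_one := (labW_ok hw hℓ).qa_one
  qa_mul := (labW_ok hw hℓ).qa_mul
  qa_el := (labW_ok hw hℓ).qa_el
  el_inj := (labW_ok hw hℓ).el_inj
  N_el := (labW_ok hw hℓ).N_el
  N_act := (labW_ok hw hℓ).N_act
  Ψ_act := (labW_ok hw hℓ).Ψ_act
  δ_act σ x q := by cases q <;> rfl
  inv := (labW_ok hw hℓ).inv
  meas := (labW_ok hw hℓ).meas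
  contN := (labW_ok hw hℓ).contN
  contΨ := (labW_ok hw hℓ).contΨ
  contδ q := continuous_const
  rcv x hx x' hx' g g' hg hg' τ h := by
    refine (labW_ok hw hℓ).rcv x hx x' hx' g g' hg hg' τ fun n n' => ?_
    rw [mat_W, mat_W]
    by_cases hn : n = n'
    · rw [if_pos hn, if_pos (congrArg τ hn)]
    · have hn' : τ n ≠ τ n' := fun h1 => hn (τ.injective h1)
      have h1 := h n n'
      rw [mat_D x' g' hn', mat_D x g hn] at h1
      rw [if_neg hn, if_neg hn']
      exact h1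

theorem q1_of_labD (hw : ∀ j < ℓ, Nz (w j)) (hℓ : 2 ≤ ℓ) {K : Set (Mx (Fin m → Bool))}
    (hK : ∀ x ∈ Grd, ∀ g, (labW ℓ w).Val x g → (labD ℓ w d).mat x g ∈ K) (h : Dich IsoM K) : Q1 := by
  have h1 : Dich IsoM Grd := by
    refine Lab.dich (labD_ok (d := d) hw hℓ) (K := K) hK (fun x y => ?_) h
    constructor
    · rintro ⟨σ, hσ⟩
      refine ⟨σ, ?_⟩
      funext u v
      show x (σ⁻¹ u) (σ⁻¹ v) = y u v
      rw [← hσ]
      simp
    · rintro ⟨σ, rfl⟩
      refine ⟨σ, fun u v => ?_⟩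
      show x (σ⁻¹ (σ u)) (σ⁻¹ (σ v)) = x u v
      simp
  exact fun a => dich_str h1 a

end Pool.H22.DH
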