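import Pool.Agent.H22.DH.Mem
import Pool.Agent.H22.DH.Ex
import Pool.Agent.H22.DH.LbD
import Pool.Agent.H22.DH.Cls
import Pool.Agent.H22.D.Tme

/-!
# THEOREM D for hereditary classes of structures without `K_(t,t)` (module THMH)

If all members are sparse: `dich_sparse`, `Dich.mono`, `sv_hb`; if `Q1`: `dich_of_q1`. Conversely let `y ∈ Hb t F` be not
sparse; `k ≥ 2 * t`, `k ≥ 1`, `k` not smaller than the numbers of elements of the members of `F`; `exists_pi`, `mem_hb`,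
`q1_of_labD` (`2 ≤ ℓ` from `PI.len`).
-/

set_option autoImplicit false

namespace Pool.H22.DH

open Set Function Pool.H22.D Pool.H22.DI Pool.H63.MQ

variable {m : ℕ}

theorem hb_dichotomy (t : ℕ) {F : Set (FS m)} (hF : F.Finite) :
    SV (Hb t F) ↔ (∀ y ∈ Hb t F, Sparse y) ∨ Q1 := by
  classical
  rw [sv_hb]
  constructor
  · intro hD
    by_cases hS : ∀ y ∈ Hb t F, Sparse y
    · exact Or.inl hS
    right
    push Not at hS
    obtain ⟨y, hy, hny⟩ := hS
    obtain ⟨k₀, hk₀⟩ : ∃ k₀ : ℕ, ∀ H ∈ F, H.1 ≤ k₀ := by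
      obtain ⟨b, hb⟩ := (hF.image (fun H : FS m => H.1)).bddAbove
      exact ⟨b, fun H hH => hb (mem_image_of_mem _ hH)⟩
    obtain ⟨k, hk⟩ : ∃ k, k = k₀ + 2 * t + 1 := ⟨_, rfl⟩
    obtain ⟨S, ℓ, w, d, hpi⟩ := exists_pi hy.1 hny k
    have hlen := hpi.len
    refine q1_of_labD (w := w) (d := d) (ℓ := ℓ) (K := Hb t F) (fun j hj => hpi.nz j hj) (by omega) ?_ hD
    intro x _ g hg
    exact mem_hb hy hpi (by omega) (fun H hH => (hk₀ H hH).trans (by omega)) hg
  · rintro (h | h)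
    · exact (dich_sparse m).mono h
    · exact dich_of_q1 h _

end Pool.H22.DH
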