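import Pool.Agent.H22.DH.Df
import Pool.Agent.H22.DI.Geo

/-!
# Words of shortest paths (module CBA)

`wt y k p` : the first `k` letters and the first `k + 1` types of the path `p` (a finite type).
`exists_pair`: for `u ≠ v` in `S` with `¬ Sc (2 k) u v` there is a finite set `Y₁` such that walks avoiding `Y₁`
have more than `2 k` steps, so by `exists_geo` for `Y ∪ Y₁` there is for every finite `Y` an induced path from `u`
to `v` outside `Y` with more than `2 k` steps, and one pair of words `(P, P')` is good for all finite `Y`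
(otherwise take the union of finitely many bad finite sets). `exists_facI`: as `exists_fac` (`D/PthP.lean`).
-/

set_option autoImplicit false

namespace Pool.H22.DH

open Set Function Pool.H22.D Pool.H22.DI

variable {m k : ℕ} {y : Mx (Fin m → Bool)} {S : Set ℕ}

/-- the first `k` letters and types -/
def wt (y : Mx (Fin m → Bool)) (k : ℕ) (p : ℕ → ℕ) : (Fin k → Ltr m) × (Fin (k + 1) → Tv m) :=
  (fun j => (y (p j) (p (j + 1)), y (p (j + 1)) (p j)), fun j => y (p j) (p j))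

theorem exists_pair (hS : InsG (GA y) S) {u v : ℕ} (hu : u ∈ S) (hv : v ∈ S) (huv : u ≠ v)
    (h : ¬ Sc (GA y) (2 * k) u v) : ∃ P P', ∀ Y : Set ℕ, Y.Finite → u ∉ Y → v ∉ Y →
      ∃ n p, 2 * k < n ∧ IPth (GA y) n p ∧ p 0 = u ∧ p n = v ∧ (∀ j ≤ n, p j ∉ Y) ∧
        wt y k p = P ∧ wt y k (fun j => p (n - j)) = P' := by
  unfold Sc at h
  push Not at h
  obtain ⟨Y₁, hY₁, hu₁, hv₁, h₁⟩ := h
  by_contra hcon
  push Not at hcon
  choose Z hZ hZu hZv hZ' using hcon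
  have hfin : (⋃ P, ⋃ P', Z P P').Finite := finite_iUnion fun P => finite_iUnion fun P' => hZ P P'
  have hmem : ∀ x, (∀ P P', x ∉ Z P P') → x ∉ Y₁ → x ∉ Y₁ ∪ ⋃ P, ⋃ P', Z P P' := by
    intro x h2 h3 h4
    rcases h4 with h4 | h4
    · exact h3 h4
    · obtain ⟨P, h5⟩ := mem_iUnion.1 h4
      obtain ⟨P', h6⟩ := mem_iUnion.1 h5
      exact h2 P P' h6
  obtain ⟨n, p, h2, h3, h4, h5, -⟩ := exists_geo hS hu hv huv (hY₁.union hfin)
    (hmem u hZu hu₁) (hmem v hZv hv₁)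
  have hn : 2 * k < n := by
    by_contra h6
    push Not at h6
    refine h₁ n h6 ⟨p, h3, h4, ?_, ?_⟩
    · intro j hj
      exact (h2.adj j hj.le (j + 1) hj).2 (Or.inl rfl)
    · intro j hj _ h7
      exact h5 j hj (Or.inl h7)
  refine hZ' (wt y k p) (wt y k (fun j => p (n - j))) n p hn h2 h3 h4 ?_ rfl rfl
  intro j hj h7
  exact h5 j hj (Or.inr (mem_iUnion.2 ⟨_, mem_iUnion.2 ⟨_, h7⟩⟩))

theorem exists_facI (y : Mx (Fin m → Bool)) (k : ℕ) : ∃ Y₀ : Set ℕ, Y₀.Finite ∧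
    ∀ p, IPth (GA y) k p → (∀ j ≤ k, p j ∉ Y₀) → ∀ Y : Set ℕ, Y.Finite →
      ∃ p', IPth (GA y) k p' ∧ (∀ j ≤ k, p' j ∉ Y) ∧ wt y k p' = wt y k p := by
  have h1 : ∀ W : (Fin k → Ltr m) × (Fin (k + 1) → Tv m), ∃ Z : Set ℕ, Z.Finite ∧
      ((∃ Y : Set ℕ, Y.Finite ∧ ∀ p', IPth (GA y) k p' → (∀ j ≤ k, p' j ∉ Y) →
        wt y k p' ≠ W) →
      ∀ p', IPth (GA y) k p' → (∀ j ≤ k, p' j ∉ Z) → wt y k p' ≠ W) := by
    intro W
    by_cases h : ∃ Y : Set ℕ, Y.Finite ∧ ∀ p', IPth (GA y) k p' → (∀ j ≤ k, p' j ∉ Y) →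
        wt y k p' ≠ W
    · obtain ⟨Y, hY, hY'⟩ := h
      exact ⟨Y, hY, fun _ => hY'⟩
    · exact ⟨∅, finite_empty, fun h' => absurd h' h⟩
  choose Z hZ hZ' using h1
  refine ⟨⋃ W, Z W, finite_iUnion hZ, fun p hp hpY Y hY => ?_⟩
  by_contra hcon
  refine hZ' (wt y k p) ⟨Y, hY, fun p' hp' hpY' hw => ?_⟩ p hp
    (fun j hj hjZ => hpY j hj (mem_iUnion.2 ⟨_, hjZ⟩)) rfl
  exact hcon ⟨p', hp', hpY', hw⟩

end Pool.H22.DH
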