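import Pool.Agent.H22.DI.Df
import Pool.Agent.H22.D.PthA

/-!
# THEOREM D for hereditary classes of structures without `K_(t,t)`: definitions

Classes of structures with `m` binary relations with finitely many forbidden INDUCED finite substructures,
whose Gaifman graphs have no subgraph `K_(t,t)`.
-/

set_option autoImplicit false

namespace Pool.H22.DH

open Set Function Pool.H22.D Pool.H22.DI

variable {m : ℕ}

/-- types of elements -/
abbrev Tv (m : ℕ) : Type := Fin m → Bool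

/-- the Gaifman graph -/
def GA (y : Mx (Fin m → Bool)) : SimpleGraph ℕ where
  Adj := Adj y
  symm := ⟨fun _ _ h => ⟨h.1.symm, h.2.imp fun _ h' => h'.symm⟩⟩
  loopless := ⟨fun _ h => h.1 rfl⟩

/-- induced occurrences -/
def OccI {α : Type} (H : FS m) (y : α → α → Fin m → Bool) : Prop :=
  ∃ f : Fin H.1 → α, Injective f ∧ ∀ u v, y (f u) (f v) = H.2 u v

/-- the class -/
def Hb (t : ℕ) (F : Set (FS m)) : Set (Mx (Fin m → Bool)) :=
  {y | NoK t (GA y) ∧ ∀ H ∈ F, ¬ OccI H y}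

/-- `p` reads the letters `w 0, .., w (n - 1)` and the types `d 0, .., d n` -/
def Rd (y : Mx (Fin m → Bool)) (w : ℕ → Ltr m) (d : ℕ → Tv m) (n : ℕ) (p : ℕ → ℕ) : Prop :=
  (∀ j < n, y (p j) (p (j + 1)) = (w j).1 ∧ y (p (j + 1)) (p j) = (w j).2) ∧
    ∀ j ≤ n, y (p j) (p j) = d j

/-- the word backwards -/
def rvw (ℓ : ℕ) (w : ℕ → Ltr m) : ℕ → Ltr m := fun j => (w (ℓ - 1 - j)).swap

/-- the types backwards -/
def rvd (ℓ : ℕ) (d : ℕ → Tv m) : ℕ → Tv m := fun j => d (ℓ - j)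

/-- everything which is needed in `y` : from every element of the infinite set `S` start induced paths with
the first `k` letters of `w` and with the last `k` letters of `w` backwards, outside of every finite set,
and all parts of `w` with `k` letters occur on induced paths outside of every finite set -/
structure PI (y : Mx (Fin m → Bool)) (S : Set ℕ) (k ℓ : ℕ) (w : ℕ → Ltr m) (d : ℕ → Tv m) : Prop where
  len : 2 * k < ℓ
  inf : S.Infinite
  dl : d ℓ = d 0
  nz : ∀ j < ℓ, ∃ i, (w j).1 i = true ∨ (w j).2 i = true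
  out : ∀ s ∈ S, ∀ Y : Set ℕ, Y.Finite → ∃ p, IPth (GA y) k p ∧ p 0 = s ∧
    (∀ j ≤ k, 0 < j → p j ∉ Y) ∧ Rd y w d k p
  inn : ∀ s ∈ S, ∀ Y : Set ℕ, Y.Finite → ∃ p, IPth (GA y) k p ∧ p 0 = s ∧
    (∀ j ≤ k, 0 < j → p j ∉ Y) ∧ Rd y (rvw ℓ w) (rvd ℓ d) k p
  fac : ∀ i, i + k ≤ ℓ → ∀ Y : Set ℕ, Y.Finite → ∃ p, IPth (GA y) k p ∧
    (∀ j ≤ k, p j ∉ Y) ∧ Rd y (fun j => w (i + j)) (fun j => d (i + j)) k p

/-- points of the universal structure: centres of the stars `b`, points on the legs `c` of the stars `b`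
(`true`: outgoing, `false`: ingoing), points on parts of `w` -/
inductive Tp
  | ctr (b : ℕ)
  | leg (b : ℕ) (o : Bool) (c j : ℕ)
  | fac (b i j : ℕ)
  deriving DecidableEq

/-- the points which are used, with legs `c < N` -/
def Tp.Ok (k ℓ N : ℕ) : Tp → Prop
  | .ctr _ => True
  | .leg _ _ c j => c < N ∧ 1 ≤ j ∧ j ≤ k
  | .fac _ i j => i + k ≤ ℓ ∧ j ≤ k

/-- the letter of the step from one point to another one -/
def stt (ℓ : ℕ) (w : ℕ → Ltr m) : Tp → Tp → Option (Ltr m)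
  | .ctr b, .leg b' o _ j =>
    if b = b' ∧ j = 1 then some (if o = true then w 0 else rvw ℓ w 0) else none
  | .leg b o c j, .leg b' o' c' j' =>
    if b = b' ∧ o = o' ∧ c = c' ∧ j' = j + 1 then some (if o = true then w j else rvw ℓ w j) else none
  | .fac b i j, .fac b' i' j' => if b = b' ∧ i = i' ∧ j' = j + 1 then some (w (i + j)) else none
  | _, _ => none

/-- the type of a point -/
def dgt (ℓ : ℕ) (d : ℕ → Tv m) : Tp → Tv m
  | .ctr _ => d 0
  | .leg _ o _ j => if o = true then d j else rvd ℓ d j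
  | .fac _ i j => d (i + j)

/-- the universal structure -/
def matT (ℓ : ℕ) (w : ℕ → Ltr m) (d : ℕ → Tv m) (q q' : Tp) : Fin m → Bool :=
  if q = q' then dgt ℓ d q else
    match stt ℓ w q q' with
    | some l => l.1
    | none => match stt ℓ w q' q with
      | some l => l.2
      | none => fun _ => false

/-- the structures coded by the word `w` with the types `d` -/
def labD {m : ℕ} (ℓ : ℕ) (w : ℕ → Ltr m) (d : ℕ → Tv m) : Lab (Mx ℕ) Qw (Fin m → Bool) where
  act := (labW ℓ w).act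
  qa := (labW ℓ w).qa
  el := (labW ℓ w).el
  N := (labW ℓ w).N
  Ψ := (labW ℓ w).Ψ
  δ _ q := match q with
    | .el _ => d 0
    | .lf _ => d 1
    | .pt _ _ j => d j

/-- indiscernible subdivisions (the truth values and the letters do not depend on the indices) -/
structure Hom (y : Mx (Fin m → Bool)) (r : ℕ) (s : ℕ → ℕ) (x : ℕ → ℕ → ℕ → ℕ) : Prop where
  ss : ∀ f : ℕ → ℕ, StrictMono f → ∀ i j, Adj y (s i) (s j) ↔ Adj y (s (f i)) (s (f j))
  sx : ∀ f : ℕ → ℕ, StrictMono f → ∀ k i j c, i < j → c ≤ r →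
    (Adj y (s k) (x i j c) ↔ Adj y (s (f k)) (x (f i) (f j) c))
  xx : ∀ f : ℕ → ℕ, StrictMono f → ∀ i j c i' j' c', i < j → i' < j' → c ≤ r → c' ≤ r →
    (Adj y (x i j c) (x i' j' c') ↔ Adj y (x (f i) (f j) c) (x (f i') (f j') c'))
  wd : ∀ i j i' j', i < j → i' < j' → ∀ c < r,
    y (x i j c) (x i j (c + 1)) = y (x i' j' c) (x i' j' (c + 1)) ∧
      y (x i j (c + 1)) (x i j c) = y (x i' j' (c + 1)) (x i' j' c)
  dg : ∀ i j i' j', i < j → i' < j' → ∀ c ≤ r, y (x i j c) (x i j c) = y (x i' j' c) (x i' j' c)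

/-- no edges except those of the paths -/
structure FCl (y : Mx (Fin m → Bool)) (r : ℕ) (s : ℕ → ℕ) (x : ℕ → ℕ → ℕ → ℕ) : Prop where
  ss : ∀ i j, ¬ Adj y (s i) (s j)
  sx : ∀ k i j c, i < j → 0 < c → c < r → k ≠ i → k ≠ j → ¬ Adj y (s k) (x i j c)
  xx : ∀ i j c i' j' c', i < j → i' < j' → 0 < c → c < r → 0 < c' → c' < r → (i, j) ≠ (i', j') →
    ¬ Adj y (x i j c) (x i' j' c')

end Pool.H22.DH
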