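import Pool.Agent.H22.DH.EmtB

/-!
# Small parts of coded structures in the universal structure (module EMT)

`matT_blk`: points of different blocks have no relations. `emb_T`: as `emb_aux` in `Pool/Agent/H22/D/Emb.lean`:
strong induction on the number of elements of `A`, for all `B` (all blocks `≥ B`): take `K`, `θ` from `emt_el` or
`emt_run` for the block `B`, and `θ'`, `N'` for `A \ K` and `B + 1`; `max N N'` (`Tp.Ok` is monotone in `N`); glue
them together. Between `K` and `A \ K` there are no steps, so both sides are `fun _ => false`.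
-/

set_option autoImplicit false

namespace Pool.H22.DH

open Set Function Pool.H22.D Pool.H22.DI

variable {m k ℓ : ℕ} {w : ℕ → Ltr m} {d : ℕ → Tv m} {x : Mx ℕ} {g : ℕ → Qw}

private theorem stt_blk {q q' : Tp} (h : q.blk ≠ q'.blk) : stt ℓ w q q' = none := by
  cases q <;> cases q' <;> simp only [stt, Tp.blk] at h ⊢
  · rw [if_neg]
    exact fun h1 => h h1.1
  · rw [if_neg]
    exact fun h1 => h h1.1
  · rw [if_neg]
    exact fun h1 => h h1.1

theorem matT_blk {q q' : Tp} (h : q.blk ≠ q'.blk) : matT ℓ w d q q' = fun _ => false := by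
  have h1 : q ≠ q' := by
    rintro rfl
    exact h rfl
  unfold matT
  rw [if_neg h1, stt_blk h, stt_blk h.symm]

private theorem ok_mono {q : Tp} {N N' : ℕ} (hN : N ≤ N') (h : q.Ok k ℓ N) : q.Ok k ℓ N' := by
  cases q with
  | ctr b => trivial
  | leg b o c j => exact ⟨lt_of_lt_of_le h.1 hN, h.2.1, h.2.2⟩
  | fac b i j => exact h

private theorem emt_no {n n' : ℕ} (hne : n ≠ n') (h1 : stp ℓ (g n) (g n') = none)
    (h2 : stp ℓ (g n') (g n) = none) : (labD ℓ w d).mat x g n n' = fun _ => false := by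
  have h3 : (labD ℓ w d).mat x g n n' = psw ℓ w (g n) (g n') := if_neg hne
  rw [h3]
  unfold psw
  rw [h1, h2]

private theorem emt_aux (hℓ : 2 * k < ℓ) (hg : (labW ℓ w).Val x g) (A : Finset ℕ)
    (hA : A.card ≤ k) (B : ℕ) :
    ∃ (N : ℕ) (θ : ℕ → Tp), InjOn θ A ∧ (∀ n ∈ A, (θ n).Ok k ℓ N ∧ B ≤ (θ n).blk) ∧
      ∀ n ∈ A, ∀ n' ∈ A, matT ℓ w d (θ n) (θ n') = (labD ℓ w d).mat x g n n' := by
  obtain ⟨c, hc⟩ : ∃ c, c = A.card := ⟨_, rfl⟩
  induction c using Nat.strong_induction_on generalizing A B with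
  | _ c ih =>
  rcases A.eq_empty_or_nonempty with rfl | hne
  · exact ⟨0, fun _ => .ctr 0, fun n hn => absurd hn (by simp),
      fun n hn => absurd hn (Finset.notMem_empty n), fun n hn => absurd hn (Finset.notMem_empty n)⟩
  obtain ⟨K, hKA, hKne, hcl, N, θ, h1, h2, h3⟩ : ∃ K : Finset ℕ, K ⊆ A ∧ K.Nonempty ∧
      (∀ n ∈ K, ∀ n' ∈ A, n ≠ n' → (stp ℓ (g n) (g n') ≠ none ∨ stp ℓ (g n') (g n) ≠ none) →
        n' ∈ K) ∧
      ∃ (N : ℕ) (θ : ℕ → Tp), InjOn θ K ∧ (∀ n ∈ K, (θ n).Ok k ℓ N ∧ (θ n).blk = B) ∧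
        ∀ n ∈ K, ∀ n' ∈ K, matT ℓ w d (θ n) (θ n') = (labD ℓ w d).mat x g n n' := by
    by_cases hel : ∃ b ∈ A, ∃ v, g b = .el v
    · obtain ⟨b, hb, v, hv⟩ := hel
      obtain ⟨K, h1, h2, h3, h4⟩ := emt_el (w := w) (d := d) hℓ hg hA hb hv B
      exact ⟨K, h1, ⟨b, h2⟩, h3, h4⟩
    · push Not at hel
      exact emt_run hℓ hg hA hne hel B
  have hcard : (A \ K).card < A.card :=
    Finset.card_lt_card (Finset.sdiff_ssubset hKA hKne)
  obtain ⟨N', θ', h1', h2', h3'⟩ := ih (A \ K).card (by rw [hc]; exact hcard) (A \ K)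
    (hcard.le.trans hA) (B + 1) rfl
  have hno : ∀ n ∈ K, ∀ n' ∈ A, n' ∉ K → stp ℓ (g n) (g n') = none ∧ stp ℓ (g n') (g n) = none := by
    intro n hn n' hn' hnK
    have hne' : n ≠ n' := by
      rintro rfl
      exact hnK hn
    by_contra hcon
    apply hnK
    refine hcl n hn n' hn' hne' ?_
    by_contra h5
    push Not at h5
    exact hcon h5
  have hbl : ∀ n ∈ K, ∀ n' ∈ A, n' ∉ K → (θ n).blk ≠ (θ' n').blk := by
    intro n hn n' hn' hnK
    have h5 := (h2 n hn).2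
    have h6 := (h2' n' (Finset.mem_sdiff.2 ⟨hn', hnK⟩)).2
    omega
  refine ⟨max N N', fun n => if n ∈ K then θ n else θ' n, ?_, ?_, ?_⟩
  · intro n hn n' hn' he
    have hn1 : n ∈ A := hn
    have hn1' : n' ∈ A := hn'
    by_cases hK : n ∈ K <;> by_cases hK' : n' ∈ K
    · simp only [if_pos hK, if_pos hK'] at he
      exact h1 hK hK' he
    · simp only [if_pos hK, if_neg hK'] at he
      exact absurd (congrArg Tp.blk he) (hbl n hK n' hn1' hK')
    · simp only [if_neg hK, if_pos hK'] at he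
      exact absurd (congrArg Tp.blk he.symm) (hbl n' hK' n hn1 hK)
    · simp only [if_neg hK, if_neg hK'] at he
      exact h1' (Finset.mem_coe.2 (Finset.mem_sdiff.2 ⟨hn1, hK⟩))
        (Finset.mem_coe.2 (Finset.mem_sdiff.2 ⟨hn1', hK'⟩)) he
  · intro n hn
    by_cases hK : n ∈ K
    · simp only [if_pos hK]
      exact ⟨ok_mono (le_max_left _ _) (h2 n hK).1, (h2 n hK).2.ge⟩
    · simp only [if_neg hK]
      have h5 := h2' n (Finset.mem_sdiff.2 ⟨hn, hK⟩)
      exact ⟨ok_mono (le_max_right _ _) h5.1, (Nat.le_succ B).trans h5.2⟩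
  · intro n hn n' hn'
    by_cases hK : n ∈ K <;> by_cases hK' : n' ∈ K
    · simp only [if_pos hK, if_pos hK']
      exact h3 n hK n' hK'
    · simp only [if_pos hK, if_neg hK']
      obtain ⟨h5, h6⟩ := hno n hK n' hn' hK'
      have hne' : n ≠ n' := by
        rintro rfl
        exact hK' hK
      rw [matT_blk (hbl n hK n' hn' hK'), emt_no hne' h5 h6]
    · simp only [if_neg hK, if_pos hK']
      obtain ⟨h5, h6⟩ := hno n' hK' n hn hK
      have hne' : n ≠ n' := by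
        rintro rfl
        exact hK hK'
      rw [matT_blk (hbl n' hK' n hn hK).symm, emt_no hne' h6 h5]
    · simp only [if_neg hK, if_neg hK']
      exact h3' n (Finset.mem_sdiff.2 ⟨hn, hK⟩) n' (Finset.mem_sdiff.2 ⟨hn', hK'⟩)

theorem emb_T (hℓ : 2 * k < ℓ) (hg : (labW ℓ w).Val x g) (A : Finset ℕ) (hA : A.card ≤ k) :
    ∃ (N : ℕ) (θ : ℕ → Tp), InjOn θ A ∧ (∀ n ∈ A, (θ n).Ok k ℓ N) ∧
      ∀ n ∈ A, ∀ n' ∈ A, matT ℓ w d (θ n) (θ n') = (labD ℓ w d).mat x g n n' := by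
  obtain ⟨N, θ, h1, h2, h3⟩ := emt_aux (w := w) (d := d) hℓ hg A hA 0
  exact ⟨N, θ, h1, fun n hn => (h2 n hn).1, h3⟩

end Pool.H22.DH
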