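import Pool.Agent.H22.DH.Df
import Pool.Agent.H22.D.Wa

/-!
# Small parts of coded structures in the universal structure, I (module EMTA)

Copy the proof of `emb_el` (`Pool/Agent/H22/D/EmbA.lean`, with its private lemmas; `Pers` is not needed, `π c j` is
replaced by points `Tp`): `K` = the points of `A` connected with `b` (`EP`); `θ b = ctr B`; a leaf `n ↦ leg B true c 1`,
a point `n` with the label `pt v v' j` `↦ leg B true c j`, a point with the label `pt u v j` `↦ leg B false c (ℓ - j)`, where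
`c` is the number of the leg (`ecc`, different for different leaves, `v'`, `u`), `N` larger than all `c`. Exactness:
labels of steps (`stp`) correspond to steps `stt` with the same letters (`rvw ℓ w (ℓ - 1 - j) = (w j).swap` for
`j < ℓ`), and if there is no step then both sides are `fun _ => false`; types: `labD`, `dgt` (`d ℓ = d 0` is not
needed here). `K` is closed: `emba_closed`.
-/

set_option autoImplicit false

namespace Pool.H22.DH

open Set Function Pool.H22.D Pool.H22.DI

variable {m k ℓ : ℕ} {w : ℕ → Ltr m} {d : ℕ → Tv m} {x : Mx ℕ} {g : ℕ → Qw}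

/-- the number of the block of a point -/
def Tp.blk : Tp → ℕ
  | .ctr b => b
  | .leg b _ _ _ => b
  | .fac b _ _ => b

private theorem emta_cnt {A I : Finset ℕ} {b v u v' : ℕ} (hb : b ∈ A) (hv : g b = .el v)
    (h : ∀ i ∈ I, ∃ n ∈ A, g n = .pt u v' i) : I.card + 1 ≤ A.card := by
  classical
  have h1 : insert (Qw.el v) (I.image fun i => Qw.pt u v' i) ⊆ A.image g := by
    intro q hq
    rcases Finset.mem_insert.1 hq with rfl | hq
    · exact Finset.mem_image.2 ⟨b, hb, hv⟩
    · obtain ⟨i, hi, rfl⟩ := Finset.mem_image.1 hq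
      obtain ⟨n, hn, hgn⟩ := h i hi
      exact Finset.mem_image.2 ⟨n, hn, hgn⟩
  have h2 := (Finset.card_le_card h1).trans Finset.card_image_le
  have h3 : Qw.el v ∉ I.image fun i => Qw.pt u v' i := by
    intro h4
    obtain ⟨i, -, h5⟩ := Finset.mem_image.1 h4
    cases h5
  have h4 : Injective fun i => Qw.pt u v' i := by
    intro i i' h5
    simpa using h5
  rw [Finset.card_insert_of_notMem h3, Finset.card_image_of_injective I h4] at h2
  exact h2

/-- the points of the part around the element `v` -/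
private def EPt (ℓ : ℕ) (g : ℕ → Qw) (A : Finset ℕ) (b v n : ℕ) : Prop :=
  n = b ∨ g n = .lf v ∨
    (∃ v' j, g n = .pt v v' j ∧ ∀ i, 1 ≤ i → i ≤ j → ∃ n' ∈ A, g n' = .pt v v' i) ∨
    ∃ u j, g n = .pt u v j ∧ ∀ i, j ≤ i → i < ℓ → ∃ n' ∈ A, g n' = .pt u v i

/-- the number of the arm -/
private def ecc (g : ℕ → Qw) (v n : ℕ) : ℕ :=
  match g n with
  | .el _ => 0
  | .lf _ => 3 * n
  | .pt u' v' _ => if u' = v then 3 * v' + 1 else 3 * u' + 2

/-- the point of the universal structure -/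
private def eth (ℓ : ℕ) (g : ℕ → Qw) (v B n : ℕ) : Tp :=
  match g n with
  | .el _ => .ctr B
  | .lf _ => .leg B true (3 * n) 1
  | .pt u' v' j => if u' = v then .leg B true (3 * v' + 1) j else .leg B false (3 * u' + 2) (ℓ - j)

/-- the three kinds of points different from `b` -/
private theorem emta_kind (hg : (labW ℓ w).Val x g) {A : Finset ℕ} (hA : A.card ≤ k)
    {b v : ℕ} (hb : b ∈ A) (hv : g b = .el v) (B : ℕ) {n : ℕ} (hn : EPt ℓ g A b v n) :
    (n = b ∧ ecc g v n = 0 ∧ eth ℓ g v B n = .ctr B) ∨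
    (n ≠ b ∧ g n = .lf v ∧ ecc g v n = 3 * n ∧ eth ℓ g v B n = .leg B true (3 * n) 1) ∨
    (n ≠ b ∧ ∃ v' j, g n = .pt v v' j ∧ v ≠ v' ∧ 1 ≤ j ∧ j < k ∧ ecc g v n = 3 * v' + 1 ∧
      eth ℓ g v B n = .leg B true (3 * v' + 1) j) ∨
    (n ≠ b ∧ ∃ u j, g n = .pt u v j ∧ u ≠ v ∧ j < ℓ ∧ ℓ - j < k ∧ ecc g v n = 3 * u + 2 ∧
      eth ℓ g v B n = .leg B false (3 * u + 2) (ℓ - j)) := by
  by_cases hnb : n = b
  · left
    refine ⟨hnb, ?_, ?_⟩
    · unfold ecc
      rw [hnb, hv]
    · unfold eth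
      rw [hnb, hv]
  right
  rcases hn with h | h | ⟨v', j, h, hi⟩ | ⟨u, j, h, hi⟩
  · exact absurd h hnb
  · left
    refine ⟨hnb, h, ?_, ?_⟩
    · unfold ecc
      rw [h]
    · unfold eth
      rw [h]
  · right
    left
    have h1 := vl_of hg n
    rw [h] at h1
    obtain ⟨h2, -, h3, -⟩ := h1
    have h4 := emta_cnt (I := Finset.Icc 1 j) hb hv fun i hi' =>
      hi i (Finset.mem_Icc.1 hi').1 (Finset.mem_Icc.1 hi').2
    rw [Nat.card_Icc] at h4
    refine ⟨hnb, v', j, h, h2, h3, by omega, ?_, ?_⟩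
    · unfold ecc
      rw [h]
      exact if_pos rfl
    · unfold eth
      rw [h]
      exact if_pos rfl
  · right
    right
    have h1 := vl_of hg n
    rw [h] at h1
    obtain ⟨h2, -, h3, h5⟩ := h1
    have h4 := emta_cnt (I := Finset.Ico j ℓ) hb hv fun i hi' =>
      hi i (Finset.mem_Ico.1 hi').1 (Finset.mem_Ico.1 hi').2
    rw [Nat.card_Ico] at h4
    refine ⟨hnb, u, j, h, h2, h5, by omega, ?_, ?_⟩
    · unfold ecc
      rw [h]
      exact if_neg h2
    · unfold eth
      rw [h]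
      exact if_neg h2

private theorem emta_b (hg : (labW ℓ w).Val x g) {b v n : ℕ} (hv : g b = .el v)
    (hn : g n = .el v) : n = b := by
  refine pt_unique hg (hn.trans hv.symm) fun v' h => ?_
  rw [hn] at h
  cases h

/-- one step from a label to another one -/
private theorem emta_stp {q q' : Qw} {s : ℕ} (h : stp ℓ q q' = some s) :
    (∃ u v', q = .el u ∧ q' = .pt u v' 1 ∧ s = 0) ∨ (∃ u, q = .el u ∧ q' = .lf u ∧ s = 0) ∨
    (∃ u v', q = .pt u v' s ∧ q' = .pt u v' (s + 1)) ∨
    ∃ u v', q = .pt u v' s ∧ q' = .el v' ∧ s + 1 = ℓ := by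
  cases q with
  | el u =>
    cases q' with
    | el u' => simp [stp] at h
    | lf u' =>
      change (if u = u' then some 0 else none) = some s at h
      by_cases h1 : u = u'
      · rw [if_pos h1] at h
        right
        left
        refine ⟨u, rfl, by rw [h1], (Option.some.inj h).symm⟩
      · rw [if_neg h1] at h
        cases h
    | pt u' v' j =>
      change (if u = u' ∧ j = 1 then some 0 else none) = some s at h
      by_cases h1 : u = u' ∧ j = 1
      · rw [if_pos h1] at h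
        left
        obtain ⟨rfl, rfl⟩ := h1
        exact ⟨u, v', rfl, rfl, (Option.some.inj h).symm⟩
      · rw [if_neg h1] at h
        cases h
  | lf u =>
    cases q' <;> simp [stp] at h
  | pt u v' j =>
    cases q' with
    | el u' =>
      change (if v' = u' ∧ j + 1 = ℓ then some j else none) = some s at h
      by_cases h1 : v' = u' ∧ j + 1 = ℓ
      · rw [if_pos h1] at h
        obtain ⟨rfl, h2⟩ := h1
        obtain rfl := Option.some.inj h
        right
        right
        right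
        exact ⟨u, v', rfl, rfl, h2⟩
      · rw [if_neg h1] at h
        cases h
    | lf u' => simp [stp] at h
    | pt u' v'' j' =>
      change (if u = u' ∧ v' = v'' ∧ j' = j + 1 then some j else none) = some s at h
      by_cases h1 : u = u' ∧ v' = v'' ∧ j' = j + 1
      · rw [if_pos h1] at h
        obtain ⟨rfl, rfl, rfl⟩ := h1
        obtain rfl := Option.some.inj h
        right
        right
        left
        exact ⟨u, v', rfl, rfl⟩
      · rw [if_neg h1] at h
        cases h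

private theorem emta_closed (hℓ : 2 * k < ℓ) (hg : (labW ℓ w).Val x g) {A : Finset ℕ}
    (hA : A.card ≤ k) {b v : ℕ} (hb : b ∈ A) (hv : g b = .el v) {n n' : ℕ}
    (hn : EPt ℓ g A b v n) (hnA : n ∈ A) (hn' : n' ∈ A)
    (hr : stp ℓ (g n) (g n') ≠ none ∨ stp ℓ (g n') (g n) ≠ none) : EPt ℓ g A b v n' := by
  have hlen := hℓ
  have hk : 1 ≤ k := le_trans (Finset.card_pos.2 ⟨b, hb⟩) hA
  -- points after `n'`
  rcases hr with hr | hr
  · obtain ⟨s, hs⟩ := Option.ne_none_iff_exists'.1 hr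
    rcases emta_stp hs with ⟨u, v', h1, h2, -⟩ | ⟨u, h1, h2, -⟩ | ⟨u, v', h1, h2⟩ |
      ⟨u, v', h1, h2, h3⟩
    · -- `n` is an element
      rcases hn with rfl | h4 | ⟨_, _, h4, -⟩ | ⟨_, _, h4, -⟩
      · rw [hv] at h1
        obtain rfl := Qw.el.inj h1
        right
        right
        left
        refine ⟨v', 1, h2, fun i hi hi' => ?_⟩
        obtain rfl : i = 1 := by omega
        exact ⟨n', hn', h2⟩
      · rw [h4] at h1
        cases h1
      · rw [h4] at h1
        cases h1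
      · rw [h4] at h1
        cases h1
    · rcases hn with rfl | h4 | ⟨_, _, h4, -⟩ | ⟨_, _, h4, -⟩
      · rw [hv] at h1
        obtain rfl := Qw.el.inj h1
        exact Or.inr (Or.inl h2)
      · rw [h4] at h1
        cases h1
      · rw [h4] at h1
        cases h1
      · rw [h4] at h1
        cases h1
    · rcases hn with rfl | h4 | ⟨v₁, j, h4, h5⟩ | ⟨u₁, j, h4, h5⟩
      · rw [hv] at h1
        cases h1
      · rw [h4] at h1
        cases h1
      · rw [h4] at h1
        obtain ⟨rfl, rfl, rfl⟩ := Qw.pt.inj h1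
        right
        right
        left
        refine ⟨v₁, j + 1, h2, fun i hi hi' => ?_⟩
        rcases Nat.lt_or_ge j i with h6 | h6
        · obtain rfl : i = j + 1 := by omega
          exact ⟨n', hn', h2⟩
        · exact h5 i hi h6
      · rw [h4] at h1
        obtain ⟨rfl, rfl, rfl⟩ := Qw.pt.inj h1
        right
        right
        right
        exact ⟨u₁, j + 1, h2, fun i hi hi' => h5 i (by omega) hi'⟩
    · rcases emta_kind hg hA hb hv 0 hn with ⟨rfl, -, -⟩ | ⟨-, h4, -, -⟩ |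
        ⟨-, v₁, j, h4, h6, h7, h8, -, -⟩ | ⟨-, u₁, j, h4, h6, h7, h8, -, -⟩
      · rw [hv] at h1
        cases h1
      · rw [h4] at h1
        cases h1
      · rw [h4] at h1
        obtain ⟨rfl, rfl, rfl⟩ := Qw.pt.inj h1
        omega
      · rw [h4] at h1
        obtain ⟨rfl, rfl, rfl⟩ := Qw.pt.inj h1
        exact Or.inl (emta_b hg hv h2)
  · obtain ⟨s, hs⟩ := Option.ne_none_iff_exists'.1 hr
    rcases emta_stp hs with ⟨u, v', h1, h2, -⟩ | ⟨u, h1, h2, -⟩ | ⟨u, v', h1, h2⟩ |
      ⟨u, v', h1, h2, h3⟩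
    · -- `n'` is an element, `n` the first point on a path
      rcases emta_kind hg hA hb hv 0 hn with ⟨rfl, -, -⟩ | ⟨-, h4, -, -⟩ |
        ⟨-, v₁, j, h4, h6, h7, h8, -, -⟩ | ⟨-, u₁, j, h4, h6, h7, h8, -, -⟩
      · rw [hv] at h2
        cases h2
      · rw [h4] at h2
        cases h2
      · rw [h4] at h2
        obtain ⟨rfl, rfl, rfl⟩ := Qw.pt.inj h2
        exact Or.inl (emta_b hg hv h1)
      · rw [h4] at h2
        obtain ⟨rfl, rfl, rfl⟩ := Qw.pt.inj h2
        omega
    · rcases hn with rfl | h4 | ⟨_, _, h4, -⟩ | ⟨_, _, h4, -⟩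
      · rw [hv] at h2
        cases h2
      · rw [h4] at h2
        obtain rfl := Qw.lf.inj h2
        exact Or.inl (emta_b hg hv h1)
      · rw [h4] at h2
        cases h2
      · rw [h4] at h2
        cases h2
    · rcases hn with rfl | h4 | ⟨v₁, j, h4, h5⟩ | ⟨u₁, j, h4, h5⟩
      · rw [hv] at h2
        cases h2
      · rw [h4] at h2
        cases h2
      · rw [h4] at h2
        obtain ⟨rfl, rfl, rfl⟩ := Qw.pt.inj h2
        right
        right
        left
        exact ⟨v₁, s, h1, fun i hi hi' => h5 i hi (by omega)⟩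
      · rw [h4] at h2
        obtain ⟨rfl, rfl, rfl⟩ := Qw.pt.inj h2
        right
        right
        right
        refine ⟨u₁, s, h1, fun i hi hi' => ?_⟩
        rcases Nat.lt_or_ge s i with h6 | h6
        · exact h5 i (by omega) hi'
        · obtain rfl : i = s := by omega
          exact ⟨n', hn', h1⟩
    · -- `n` is the element
      rcases hn with rfl | h4 | ⟨_, _, h4, -⟩ | ⟨_, _, h4, -⟩
      · rw [hv] at h2
        obtain rfl := Qw.el.inj h2
        right
        right
        right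
        refine ⟨u, s, h1, fun i hi hi' => ?_⟩
        obtain rfl : i = s := by omega
        exact ⟨n', hn', h1⟩
      · rw [h4] at h2
        cases h2
      · rw [h4] at h2
        cases h2
      · rw [h4] at h2
        cases h2


private theorem emta_rv {i j : ℕ} (hj : j < ℓ) (h : i = ℓ - 1 - j) : rvw ℓ w i = (w j).swap := by
  unfold rvw
  rw [h, show ℓ - 1 - (ℓ - 1 - j) = j by omega]

/-- steps correspond to steps -/
private theorem emta_L1 (hℓ : 2 * k < ℓ) (hg : (labW ℓ w).Val x g) {A : Finset ℕ}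
    (hA : A.card ≤ k) {b v : ℕ} (hb : b ∈ A) (hv : g b = .el v) (B : ℕ) {n n' s : ℕ}
    (hn : EPt ℓ g A b v n) (hn' : EPt ℓ g A b v n') (hs : stp ℓ (g n) (g n') = some s) :
    stt ℓ w (eth ℓ g v B n) (eth ℓ g v B n') = some (w s) ∨
      (stt ℓ w (eth ℓ g v B n) (eth ℓ g v B n') = none ∧
        stt ℓ w (eth ℓ g v B n') (eth ℓ g v B n) = some (w s).swap) := by
  have hk : 1 ≤ k := le_trans (Finset.card_pos.2 ⟨b, hb⟩) hA
  rcases emta_stp hs with ⟨u, v', h1, h2, rfl⟩ | ⟨u, h1, h2, rfl⟩ | ⟨u, v', h1, h2⟩ |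
    ⟨u, v', h1, h2, h3⟩
  · -- from the element to a path
    rcases emta_kind hg hA hb hv B hn with ⟨rfl, e1, e2⟩ | ⟨-, h4, -, -⟩ |
      ⟨-, v₁, j, h4, -⟩ | ⟨-, u₁, j, h4, -⟩
    · rw [hv] at h1
      obtain rfl := Qw.el.inj h1
      rcases emta_kind hg hA hb hv B hn' with ⟨rfl, -, -⟩ | ⟨-, h4, -, -⟩ |
        ⟨-, v₁, j, h4, h6, h7, h8, e3, e4⟩ | ⟨-, u₁, j, h4, h6, h7, h8, -, -⟩
      · rw [hv] at h2
        cases h2
      · rw [h4] at h2
        cases h2
      · rw [h4] at h2
        obtain ⟨-, rfl, rfl⟩ := Qw.pt.inj h2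
        left
        rw [e2, e4]
        simp [stt]
      · rw [h4] at h2
        obtain ⟨rfl, -, -⟩ := Qw.pt.inj h2
        exact absurd rfl h6
    · rw [h4] at h1
      cases h1
    · rw [h4] at h1
      cases h1
    · rw [h4] at h1
      cases h1
  · rcases emta_kind hg hA hb hv B hn with ⟨rfl, e1, e2⟩ | ⟨-, h4, -, -⟩ |
      ⟨-, v₁, j, h4, -⟩ | ⟨-, u₁, j, h4, -⟩
    · rw [hv] at h1
      obtain rfl := Qw.el.inj h1
      rcases emta_kind hg hA hb hv B hn' with ⟨rfl, -, -⟩ | ⟨-, h4, e3, e4⟩ |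
        ⟨-, v₁, j, h4, -⟩ | ⟨-, u₁, j, h4, -⟩
      · rw [hv] at h2
        cases h2
      · left
        rw [e2, e4]
        simp [stt]
      · rw [h4] at h2
        cases h2
      · rw [h4] at h2
        cases h2
    · rw [h4] at h1
      cases h1
    · rw [h4] at h1
      cases h1
    · rw [h4] at h1
      cases h1
  · -- on a path
    rcases emta_kind hg hA hb hv B hn with ⟨rfl, -, -⟩ | ⟨-, h4, -, -⟩ |
      ⟨-, v₁, j, h4, h6, h7, h8, e1, e2⟩ | ⟨-, u₁, j, h4, h6, h7, h8, e1, e2⟩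
    · rw [hv] at h1
      cases h1
    · rw [h4] at h1
      cases h1
    · rw [h4] at h1
      obtain ⟨rfl, rfl, rfl⟩ := Qw.pt.inj h1
      rcases emta_kind hg hA hb hv B hn' with ⟨rfl, -, -⟩ | ⟨-, h9, -, -⟩ |
        ⟨-, v₂, j', h9, h10, h11, h12, e3, e4⟩ | ⟨-, u₂, j', h9, h10, -, -, -, -⟩
      · rw [hv] at h2
        cases h2
      · rw [h9] at h2
        cases h2
      · rw [h9] at h2
        obtain ⟨-, rfl, rfl⟩ := Qw.pt.inj h2
        left
        rw [e2, e4]
        simp [stt]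
      · rw [h9] at h2
        obtain ⟨rfl, -, -⟩ := Qw.pt.inj h2
        exact absurd rfl h10
    · rw [h4] at h1
      obtain ⟨rfl, rfl, rfl⟩ := Qw.pt.inj h1
      rcases emta_kind hg hA hb hv B hn' with ⟨rfl, -, -⟩ | ⟨-, h9, -, -⟩ |
        ⟨-, v₂, j', h9, h10, h11, h12, -, -⟩ | ⟨-, u₂, j', h9, h10, h11, h12, e3, e4⟩
      · rw [hv] at h2
        cases h2
      · rw [h9] at h2
        cases h2
      · rw [h9] at h2
        obtain ⟨rfl, -, -⟩ := Qw.pt.inj h2
        exact absurd rfl h6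
      · rw [h9] at h2
        obtain ⟨rfl, -, rfl⟩ := Qw.pt.inj h2
        right
        rw [e2, e4]
        constructor
        · show (if _ then _ else _) = _
          rw [if_neg]
          rintro ⟨-, -, -, h13⟩
          omega
        · show (if _ then _ else _) = _
          rw [if_pos ⟨rfl, rfl, rfl, by omega⟩, if_neg (by simp)]
          exact congrArg some (emta_rv h7 (by omega))
  · -- from a path to the element
    rcases emta_kind hg hA hb hv B hn with ⟨rfl, -, -⟩ | ⟨-, h4, -, -⟩ |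
      ⟨-, v₁, j, h4, h6, h7, h8, e1, e2⟩ | ⟨-, u₁, j, h4, h6, h7, h8, e1, e2⟩
    · rw [hv] at h1
      cases h1
    · rw [h4] at h1
      cases h1
    · rw [h4] at h1
      obtain ⟨rfl, rfl, rfl⟩ := Qw.pt.inj h1
      omega
    · rw [h4] at h1
      obtain ⟨rfl, rfl, rfl⟩ := Qw.pt.inj h1
      have h5 := emta_b hg hv h2
      subst h5
      rcases emta_kind hg hA hb hv B hn' with ⟨-, e3, e4⟩ | ⟨h9, -⟩ | ⟨h9, -⟩ | ⟨h9, -⟩
      · right
        rw [e2, e4]
        refine ⟨rfl, ?_⟩
        show (if _ then _ else _) = _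
        rw [if_pos ⟨rfl, by omega⟩, if_neg (by simp)]
        exact congrArg some (emta_rv h7 (by omega))
      · exact absurd rfl h9
      · exact absurd rfl h9
      · exact absurd rfl h9

/-- steps only correspond to steps -/
private theorem emta_L2 (hg : (labW ℓ w).Val x g) {A : Finset ℕ}
    (hA : A.card ≤ k) {b v : ℕ} (hb : b ∈ A) (hv : g b = .el v) (B : ℕ) {n n' : ℕ}
    (hn : EPt ℓ g A b v n) (hn' : EPt ℓ g A b v n') {l : Ltr m}
    (hs : stt ℓ w (eth ℓ g v B n) (eth ℓ g v B n') = some l) :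
    stp ℓ (g n) (g n') ≠ none ∨ stp ℓ (g n') (g n) ≠ none := by
  rcases emta_kind hg hA hb hv B hn with ⟨rfl, e1, e2⟩ | ⟨-, h4, e1, e2⟩ |
    ⟨-, v₁, j, h4, h6, h7, h8, e1, e2⟩ | ⟨-, u₁, j, h4, h6, h7, h8, e1, e2⟩
  · rcases emta_kind hg hA hb hv B hn' with ⟨rfl, e3, e4⟩ | ⟨-, h9, e3, e4⟩ |
      ⟨-, v₂, j', h9, h10, h11, h12, e3, e4⟩ | ⟨-, u₂, j', h9, h10, h11, h12, e3, e4⟩
    · rw [e2] at hs
      cases hs
    · left
      rw [hv, h9]
      simp [stp]
    · left
      rw [e2, e4] at hs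
      have h13 : j' = 1 := by
        by_contra h14
        simp [stt, h14] at hs
      rw [hv, h9, h13]
      simp [stp]
    · right
      rw [e2, e4] at hs
      have h13 : ℓ - j' = 1 := by
        by_contra h14
        simp [stt, h14] at hs
      rw [hv, h9]
      show (if _ then _ else _) ≠ _
      rw [if_pos ⟨rfl, by omega⟩]
      exact Option.some_ne_none _
  · rcases emta_kind hg hA hb hv B hn' with ⟨rfl, e3, e4⟩ | ⟨-, h9, e3, e4⟩ |
      ⟨-, v₂, j', h9, h10, h11, h12, e3, e4⟩ | ⟨-, u₂, j', h9, h10, h11, h12, e3, e4⟩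
    · rw [e2, e4] at hs
      cases hs
    · rw [e2, e4] at hs
      simp [stt] at hs
    · rw [e2, e4] at hs
      change (if _ then _ else _) = _ at hs
      rw [if_neg (by omega)] at hs
      cases hs
    · rw [e2, e4] at hs
      simp [stt] at hs
  · rcases emta_kind hg hA hb hv B hn' with ⟨rfl, e3, e4⟩ | ⟨-, h9, e3, e4⟩ |
      ⟨-, v₂, j', h9, h10, h11, h12, e3, e4⟩ | ⟨-, u₂, j', h9, h10, h11, h12, e3, e4⟩
    · rw [e2, e4] at hs
      cases hs
    · rw [e2, e4] at hs
      change (if _ then _ else _) = _ at hs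
      rw [if_neg (by omega)] at hs
      cases hs
    · left
      rw [e2, e4] at hs
      change (if _ then _ else _) = _ at hs
      have h13 : v₁ = v₂ ∧ j' = j + 1 := by
        by_contra h14
        rw [if_neg (by omega)] at hs
        cases hs
      rw [h4, h9, h13.1, h13.2]
      simp [stp]
    · rw [e2, e4] at hs
      simp [stt] at hs
  · rcases emta_kind hg hA hb hv B hn' with ⟨rfl, e3, e4⟩ | ⟨-, h9, e3, e4⟩ |
      ⟨-, v₂, j', h9, h10, h11, h12, e3, e4⟩ | ⟨-, u₂, j', h9, h10, h11, h12, e3, e4⟩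
    · rw [e2, e4] at hs
      cases hs
    · rw [e2, e4] at hs
      simp [stt] at hs
    · rw [e2, e4] at hs
      simp [stt] at hs
    · right
      rw [e2, e4] at hs
      change (if _ then _ else _) = _ at hs
      have h13 : u₁ = u₂ ∧ ℓ - j' = ℓ - j + 1 := by
        by_contra h14
        rw [if_neg (by omega)] at hs
        cases hs
      rw [h4, h9, h13.1]
      show (if _ then _ else _) ≠ _
      rw [if_pos ⟨rfl, rfl, by omega⟩]
      exact Option.some_ne_none _

/-- no steps in both directions -/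
private theorem emta_ex {q q' : Tp} {l : Ltr m} (h : stt ℓ w q q' = some l) :
    stt ℓ w q' q = none := by
  cases q with
  | ctr b =>
    cases q' <;> rfl
  | leg b o c j =>
    cases q' with
    | ctr b' => cases h
    | leg b' o' c' j' =>
      change (if _ then _ else _) = _ at h
      have h1 : b = b' ∧ o = o' ∧ c = c' ∧ j' = j + 1 := by
        by_contra h2
        rw [if_neg h2] at h
        cases h
      show (if _ then _ else _) = _
      rw [if_neg]
      rintro ⟨-, -, -, h3⟩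
      omega
    | fac b' i' j' => cases h
  | fac b i j =>
    cases q' with
    | ctr b' => cases h
    | leg b' o' c' j' => cases h
    | fac b' i' j' =>
      change (if _ then _ else _) = _ at h
      have h1 : b = b' ∧ i = i' ∧ j' = j + 1 := by
        by_contra h2
        rw [if_neg h2] at h
        cases h
      show (if _ then _ else _) = _
      rw [if_neg]
      rintro ⟨-, -, h3⟩
      omega

private theorem emta_inj (hg : (labW ℓ w).Val x g) {A : Finset ℕ} (hA : A.card ≤ k)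
    {b v : ℕ} (hb : b ∈ A) (hv : g b = .el v) (B : ℕ) {n n' : ℕ}
    (hn : EPt ℓ g A b v n) (hn' : EPt ℓ g A b v n')
    (he : eth ℓ g v B n = eth ℓ g v B n') : n = n' := by
  rcases emta_kind hg hA hb hv B hn with ⟨e0, e1, e2⟩ | ⟨-, h4, e1, e2⟩ |
    ⟨-, v₁, j, h4, h6, h7, h8, e1, e2⟩ | ⟨-, u₁, j, h4, h6, h7, h8, e1, e2⟩
  · rcases emta_kind hg hA hb hv B hn' with ⟨e5, e3, e4⟩ | ⟨-, h9, e3, e4⟩ |
      ⟨-, v₂, j', h9, h10, h11, h12, e3, e4⟩ | ⟨-, u₂, j', h9, h10, h11, h12, e3, e4⟩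
    · rw [e0, e5]
    · rw [e2, e4] at he
      cases he
    · rw [e2, e4] at he
      cases he
    · rw [e2, e4] at he
      cases he
  · rcases emta_kind hg hA hb hv B hn' with ⟨e5, e3, e4⟩ | ⟨-, h9, e3, e4⟩ |
      ⟨-, v₂, j', h9, h10, h11, h12, e3, e4⟩ | ⟨-, u₂, j', h9, h10, h11, h12, e3, e4⟩
    · rw [e2, e4] at he
      cases he
    · rw [e2, e4] at he
      obtain ⟨-, -, h13, -⟩ := Tp.leg.inj he
      omega
    · rw [e2, e4] at he
      obtain ⟨-, -, h13, -⟩ := Tp.leg.inj he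
      omega
    · rw [e2, e4] at he
      obtain ⟨-, h13, -, -⟩ := Tp.leg.inj he
      cases h13
  · rcases emta_kind hg hA hb hv B hn' with ⟨e5, e3, e4⟩ | ⟨-, h9, e3, e4⟩ |
      ⟨-, v₂, j', h9, h10, h11, h12, e3, e4⟩ | ⟨-, u₂, j', h9, h10, h11, h12, e3, e4⟩
    · rw [e2, e4] at he
      cases he
    · rw [e2, e4] at he
      obtain ⟨-, -, h13, -⟩ := Tp.leg.inj he
      omega
    · rw [e2, e4] at he
      obtain ⟨-, -, h13, h14⟩ := Tp.leg.inj he
      have h15 : v₁ = v₂ := by omega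
      refine pt_unique hg (by rw [h4, h9, h15, h14]) fun v' h16 => ?_
      rw [h4] at h16
      cases h16
    · rw [e2, e4] at he
      obtain ⟨-, h13, -, -⟩ := Tp.leg.inj he
      cases h13
  · rcases emta_kind hg hA hb hv B hn' with ⟨e5, e3, e4⟩ | ⟨-, h9, e3, e4⟩ |
      ⟨-, v₂, j', h9, h10, h11, h12, e3, e4⟩ | ⟨-, u₂, j', h9, h10, h11, h12, e3, e4⟩
    · rw [e2, e4] at he
      cases he
    · rw [e2, e4] at he
      obtain ⟨-, h13, -, -⟩ := Tp.leg.inj he
      cases h13
    · rw [e2, e4] at he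
      obtain ⟨-, h13, -, -⟩ := Tp.leg.inj he
      cases h13
    · rw [e2, e4] at he
      obtain ⟨-, -, h13, h14⟩ := Tp.leg.inj he
      have h15 : u₁ = u₂ := by omega
      have h17 : j = j' := by omega
      refine pt_unique hg (by rw [h4, h9, h15, h17]) fun v' h16 => ?_
      rw [h4] at h16
      cases h16

theorem emt_el (hℓ : 2 * k < ℓ) (hg : (labW ℓ w).Val x g) {A : Finset ℕ} (hA : A.card ≤ k)
    {b v : ℕ} (hb : b ∈ A) (hv : g b = .el v) (B : ℕ) :
    ∃ K : Finset ℕ, K ⊆ A ∧ b ∈ K ∧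
      (∀ n ∈ K, ∀ n' ∈ A, n ≠ n' → (stp ℓ (g n) (g n') ≠ none ∨ stp ℓ (g n') (g n) ≠ none) →
        n' ∈ K) ∧
      ∃ (N : ℕ) (θ : ℕ → Tp), InjOn θ K ∧ (∀ n ∈ K, (θ n).Ok k ℓ N ∧ (θ n).blk = B) ∧
        ∀ n ∈ K, ∀ n' ∈ K, matT ℓ w d (θ n) (θ n') = (labD ℓ w d).mat x g n n' := by
  classical
  have hk : 1 ≤ k := le_trans (Finset.card_pos.2 ⟨b, hb⟩) hA
  refine ⟨A.filter (EPt ℓ g A b v), Finset.filter_subset _ _,
    Finset.mem_filter.2 ⟨hb, Or.inl rfl⟩, ?_, (A.sup fun n => ecc g v n) + 1, eth ℓ g v B,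
    ?_, ?_, ?_⟩
  · intro n hn n' hn' _ hr
    obtain ⟨h1, h2⟩ := Finset.mem_filter.1 hn
    exact Finset.mem_filter.2 ⟨hn', emta_closed hℓ hg hA hb hv h2 h1 hn' hr⟩
  · intro n hn n' hn' he
    obtain ⟨-, h2⟩ := Finset.mem_filter.1 (Finset.mem_coe.1 hn)
    obtain ⟨-, h2'⟩ := Finset.mem_filter.1 (Finset.mem_coe.1 hn')
    exact emta_inj hg hA hb hv B h2 h2' he
  · intro n hn
    obtain ⟨h1, h2⟩ := Finset.mem_filter.1 hn
    have h3 : ecc g v n ≤ A.sup fun n => ecc g v n := Finset.le_sup (f := fun n => ecc g v n) h1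
    rcases emta_kind hg hA hb hv B h2 with ⟨-, e1, e2⟩ | ⟨-, h4, e1, e2⟩ |
      ⟨-, v₁, j, h4, h6, h7, h8, e1, e2⟩ | ⟨-, u₁, j, h4, h6, h7, h8, e1, e2⟩
    · rw [e2]
      exact ⟨trivial, rfl⟩
    · rw [e2]
      refine ⟨⟨?_, le_rfl, hk⟩, rfl⟩
      rw [e1] at h3
      omega
    · rw [e2]
      refine ⟨⟨?_, h7, by omega⟩, rfl⟩
      rw [e1] at h3
      omega
    · rw [e2]
      refine ⟨⟨?_, by omega, by omega⟩, rfl⟩
      rw [e1] at h3
      omega
  · intro n hn n' hn'
    obtain ⟨h1, h2⟩ := Finset.mem_filter.1 hn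
    obtain ⟨h1', h2'⟩ := Finset.mem_filter.1 hn'
    by_cases hne : n = n'
    · subst hne
      have e5 : (labD ℓ w d).mat x g n n = (labD ℓ w d).δ x (g n) := if_pos rfl
      have e6 : matT ℓ w d (eth ℓ g v B n) (eth ℓ g v B n) = dgt ℓ d (eth ℓ g v B n) :=
        if_pos rfl
      rw [e5, e6]
      rcases emta_kind hg hA hb hv B h2 with ⟨e0, e1, e2⟩ | ⟨-, h4, e1, e2⟩ |
        ⟨-, v₁, j, h4, h6, h7, h8, e1, e2⟩ | ⟨-, u₁, j, h4, h6, h7, h8, e1, e2⟩
      · rw [e2, e0, hv]
        rfl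
      · rw [e2, h4]
        rfl
      · rw [e2, h4]
        rfl
      · rw [e2, h4]
        show d (ℓ - (ℓ - j)) = d j
        rw [show ℓ - (ℓ - j) = j by omega]
    · have hne' : eth ℓ g v B n ≠ eth ℓ g v B n' := fun he =>
        hne (emta_inj hg hA hb hv B h2 h2' he)
      have e5 : (labD ℓ w d).mat x g n n' = psw ℓ w (g n) (g n') := by
        unfold Lab.mat
        rw [if_neg hne]
        rfl
      rw [e5]
      unfold matT psw
      rw [if_neg hne']
      rcases h4 : stp ℓ (g n) (g n') with _ | s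
      · rcases h5 : stp ℓ (g n') (g n) with _ | s
        · have h6 : stt ℓ w (eth ℓ g v B n) (eth ℓ g v B n') = none := by
            rcases h7 : stt ℓ w (eth ℓ g v B n) (eth ℓ g v B n') with _ | l
            · rfl
            · rcases emta_L2 hg hA hb hv B h2 h2' h7 with h8 | h8
              · exact absurd h4 h8
              · exact absurd h5 h8
          have h6' : stt ℓ w (eth ℓ g v B n') (eth ℓ g v B n) = none := by
            rcases h7 : stt ℓ w (eth ℓ g v B n') (eth ℓ g v B n) with _ | l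
            · rfl
            · rcases emta_L2 hg hA hb hv B h2' h2 h7 with h8 | h8
              · exact absurd h5 h8
              · exact absurd h4 h8
          rw [h6, h6']
        · rcases emta_L1 hℓ hg hA hb hv B h2' h2 h5 with h6 | ⟨h6, h7⟩
          · rw [emta_ex h6, h6]
          · rw [h7]
            rfl
      · rcases emta_L1 hℓ hg hA hb hv B h2 h2' h4 with h6 | ⟨h6, h7⟩
        · rw [h6]
        · rw [h6, h7]
          rfl

end Pool.H22.DH
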