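import Pool.Agent.H22.DH.EmtA

/-!
# Small parts of coded structures in the universal structure, II (module EMTB)

Copy the proof of `emb_run` (`Pool/Agent/H22/D/EmbB.lean`). If some `b ∈ A` has a label `lf v` then `K = {b}`,
`θ b = fac B 0 1` (type `d 1`; `1 ≤ k` since `A` is not empty). Otherwise `b ∈ A` has the label `pt u v j₀` with `j₀`
minimal for the given `u`, `v`, `K` = the points of `A` with label `pt u v j` such that all labels `pt u v i`,
`j₀ ≤ i ≤ j`, occur in `A`; so `j - j₀ < k`; `i₀ = min j₀ (ℓ - k)`; `θ n = fac B i₀ (j - i₀)`; the letters and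
types are the same; points which are not consecutive have no relations on both sides. `N = 0`.
-/

set_option autoImplicit false

namespace Pool.H22.DH

open Set Function Pool.H22.D Pool.H22.DI

variable {m k ℓ : ℕ} {w : ℕ → Ltr m} {d : ℕ → Tv m} {x : Mx ℕ} {g : ℕ → Qw}

private theorem stp_pt {u v j u' v' j' : ℕ} (h : stp ℓ (.pt u v j) (.pt u' v' j') ≠ none) :
    u = u' ∧ v = v' ∧ j' = j + 1 := by
  simp only [stp] at h
  by_contra hc
  exact h (if_neg hc)

private theorem stp_pt_if {u v j j' : ℕ} :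
    stp ℓ (.pt u v j) (.pt u v j') = if j' = j + 1 then some j else none := by
  simp [stp]

private theorem psw_pt (u v j j' : ℕ) :
    psw ℓ w (.pt u v j) (.pt u v j') =
      if j' = j + 1 then (w j).1 else if j = j' + 1 then (w j').2 else fun _ => false := by
  unfold psw
  rw [stp_pt_if, stp_pt_if]
  by_cases h1 : j' = j + 1
  · rw [if_pos h1, if_pos h1]
  · rw [if_neg h1, if_neg h1]
    by_cases h2 : j = j' + 1
    · rw [if_pos h2, if_pos h2]
    · rw [if_neg h2, if_neg h2]

private theorem stt_fac {B i j j' : ℕ} (hj : i ≤ j) (hj' : i ≤ j') :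
    stt ℓ w (.fac B i (j - i)) (.fac B i (j' - i)) = if j' = j + 1 then some (w j) else none := by
  show (if B = B ∧ i = i ∧ j' - i = j - i + 1 then some (w (i + (j - i))) else none) = _
  have e : i + (j - i) = j := by omega
  rw [e]
  by_cases h : j' = j + 1
  · rw [if_pos h, if_pos ⟨rfl, rfl, by omega⟩]
  · rw [if_neg h, if_neg (fun h' => h (by omega))]

private theorem matT_fac {B i j j' : ℕ} (hj : i ≤ j) (hj' : i ≤ j') (hne : j ≠ j') :
    matT ℓ w d (.fac B i (j - i)) (.fac B i (j' - i)) =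
      if j' = j + 1 then (w j).1 else if j = j' + 1 then (w j').2 else fun _ => false := by
  have hq : Tp.fac B i (j - i) ≠ Tp.fac B i (j' - i) := by
    intro h
    rw [Tp.fac.injEq] at h
    omega
  unfold matT
  rw [if_neg hq, stt_fac hj hj', stt_fac hj' hj]
  by_cases h1 : j' = j + 1
  · rw [if_pos h1, if_pos h1]
  · rw [if_neg h1, if_neg h1]
    by_cases h2 : j = j' + 1
    · rw [if_pos h2, if_pos h2]
    · rw [if_neg h2, if_neg h2]

theorem emt_run (hℓ : 2 * k < ℓ) (hg : (labW ℓ w).Val x g) {A : Finset ℕ} (hA : A.card ≤ k)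
    (hne : A.Nonempty) (hel : ∀ n ∈ A, ∀ v, g n ≠ .el v) (B : ℕ) :
    ∃ K : Finset ℕ, K ⊆ A ∧ K.Nonempty ∧
      (∀ n ∈ K, ∀ n' ∈ A, n ≠ n' → (stp ℓ (g n) (g n') ≠ none ∨ stp ℓ (g n') (g n) ≠ none) →
        n' ∈ K) ∧
      ∃ (N : ℕ) (θ : ℕ → Tp), InjOn θ K ∧ (∀ n ∈ K, (θ n).Ok k ℓ N ∧ (θ n).blk = B) ∧
        ∀ n ∈ K, ∀ n' ∈ K, matT ℓ w d (θ n) (θ n') = (labD ℓ w d).mat x g n n' := by
  have hk : 1 ≤ k := le_trans (Finset.card_pos.2 hne) hA
  by_cases hlf : ∃ b ∈ A, ∃ v, g b = .lf v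
  · obtain ⟨b, hb, v, hv⟩ := hlf
    refine ⟨{b}, by simpa using hb, ⟨b, by simp⟩, ?_, 0, fun _ => .fac B 0 1, ?_, ?_, ?_⟩
    · intro n hn n' hn' _ hst
      rw [Finset.mem_singleton] at hn
      subst hn
      exfalso
      rcases hst with hst | hst
      · apply hst
        rw [hv]
        cases g n' <;> rfl
      · apply hst
        have hel' := hel n' hn'
        rw [hv]
        cases hgn : g n' with
        | el v' => exact absurd hgn (hel' v')
        | lf v' => rfl
        | pt u' v' j' => rfl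
    · intro n hn n' hn' _
      simp only [Finset.coe_singleton, mem_singleton_iff] at hn hn'
      rw [hn, hn']
    · intro n _
      exact ⟨⟨by omega, hk⟩, rfl⟩
    · intro n hn n' hn'
      rw [Finset.mem_singleton] at hn hn'
      subst hn hn'
      show matT ℓ w d (.fac B 0 1) (.fac B 0 1) = _
      unfold matT Lab.mat
      rw [if_pos rfl, if_pos rfl, hv]
      rfl
  · push Not at hlf
    have hpt : ∀ n ∈ A, ∃ u v j, g n = .pt u v j := by
      intro n hn
      cases hgn : g n with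
      | el v => exact absurd hgn (hel n hn v)
      | lf v => exact absurd hgn (hlf n hn v)
      | pt u v j => exact ⟨u, v, j, rfl⟩
    obtain ⟨b1, hb1⟩ := hne
    obtain ⟨u, v, j1, hj1⟩ := hpt b1 hb1
    have hex : ∃ j, ∃ n ∈ A, g n = .pt u v j := ⟨j1, b1, hb1, hj1⟩
    classical
    obtain ⟨j0, hj0def⟩ : ∃ j0, j0 = Nat.find hex := ⟨_, rfl⟩
    obtain ⟨b, hb, hbj⟩ := Nat.find_spec hex
    rw [← hj0def] at hbj
    have hmin : ∀ n ∈ A, ∀ j, g n = .pt u v j → j0 ≤ j := by
      intro n hn j hj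
      rw [hj0def]
      exact Nat.find_min' hex ⟨n, hn, hj⟩
    have hKmem : ∀ n, n ∈ A.filter (fun n => ∃ j, g n = .pt u v j ∧
        ∀ i, j0 ≤ i → i ≤ j → ∃ n' ∈ A, g n' = .pt u v i) ↔ n ∈ A ∧ ∃ j, g n = .pt u v j ∧
        ∀ i, j0 ≤ i → i ≤ j → ∃ n' ∈ A, g n' = .pt u v i := fun n => Finset.mem_filter
    obtain ⟨K, hKdef⟩ : ∃ K, K = A.filter (fun n => ∃ j, g n = .pt u v j ∧
        ∀ i, j0 ≤ i → i ≤ j → ∃ n' ∈ A, g n' = .pt u v i) := ⟨_, rfl⟩
    rw [← hKdef] at hKmem
    -- the bound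
    have hbd : ∀ j, (∀ i, j0 ≤ i → i ≤ j → ∃ n' ∈ A, g n' = .pt u v i) → j0 ≤ j → j - j0 < k := by
      intro j hj hj0
      have hc : (Finset.Icc j0 j).card ≤ A.card := by
        have hch : ∀ i : ℕ, ∃ n', i ∈ Finset.Icc j0 j → n' ∈ A ∧ g n' = .pt u v i := by
          intro i
          by_cases hi : i ∈ Finset.Icc j0 j
          · obtain ⟨h1, h2⟩ := Finset.mem_Icc.1 hi
            obtain ⟨n', h3, h4⟩ := hj i h1 h2
            exact ⟨n', fun _ => ⟨h3, h4⟩⟩
          · exact ⟨0, fun h' => absurd h' hi⟩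
        choose f hf using hch
        refine Finset.card_le_card_of_injOn f (fun i hi => (hf i hi).1) ?_
        intro i hi i' hi' hii
        have e1 := (hf i hi).2
        have e2 := (hf i' hi').2
        rw [hii, e2] at e1
        simp only [Qw.pt.injEq, true_and] at e1
        exact e1.symm
      rw [Nat.card_Icc] at hc
      omega
    have hlt : ∀ n j, g n = .pt u v j → j < ℓ := by
      intro n j hj
      have h1 := vl_of hg n
      rw [hj] at h1
      exact h1.2.2.2
    obtain ⟨i0, hi0⟩ : ∃ i0, i0 = min j0 (ℓ - k) := ⟨_, rfl⟩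
    have hi1 : i0 ≤ j0 := by rw [hi0]; exact min_le_left _ _
    have hi2 : i0 + k ≤ ℓ := by
      have : i0 ≤ ℓ - k := by rw [hi0]; exact min_le_right _ _
      omega
    have hKj : ∀ n ∈ K, ∃ j, g n = .pt u v j ∧ i0 ≤ j ∧ j - i0 < k := by
      intro n hn
      obtain ⟨hnA, j, hj, hall⟩ := (hKmem n).1 hn
      have hj0 := hmin n hnA j hj
      refine ⟨j, hj, hi1.trans hj0, ?_⟩
      have h1 := hbd j hall hj0
      have h2 := hlt n j hj
      rcases le_total j0 (ℓ - k) with h3 | h3
      · rw [min_eq_left h3] at hi0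
        omega
      · rw [min_eq_right h3] at hi0
        omega
    have hρ : ∀ n j, g n = .pt u v j →
        (match g n with | .pt _ _ j => Tp.fac B i0 (j - i0) | _ => Tp.fac B 0 0) =
          Tp.fac B i0 (j - i0) := by
      intro n j hj
      rw [hj]
    refine ⟨K, ?_, ⟨b, (hKmem b).2 ⟨hb, j0, hbj, ?_⟩⟩, ?_, 0,
      fun n => match g n with | .pt _ _ j => Tp.fac B i0 (j - i0) | _ => Tp.fac B 0 0, ?_, ?_, ?_⟩
    · intro n hn
      exact ((hKmem n).1 hn).1
    · intro i h1 h2
      have h3 : i = j0 := le_antisymm h2 h1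
      exact ⟨b, hb, by rw [h3]; exact hbj⟩
    · intro n hn n' hn' _ hst
      obtain ⟨hnA, j, hj, hall⟩ := (hKmem n).1 hn
      obtain ⟨u', v', j', hj'⟩ := hpt n' hn'
      rw [hj, hj'] at hst
      refine (hKmem n').2 ⟨hn', ?_⟩
      rcases hst with hst | hst
      · obtain ⟨rfl, rfl, rfl⟩ := stp_pt hst
        refine ⟨j + 1, hj', fun i h1 h2 => ?_⟩
        rcases Nat.lt_or_ge j i with h3 | h3
        · have h4 : i = j + 1 := by omega
          exact ⟨n', hn', by rw [h4]; exact hj'⟩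
        · exact hall i h1 h3
      · obtain ⟨rfl, rfl, rfl⟩ := stp_pt hst
        exact ⟨j', hj', fun i h1 h2 => hall i h1 (by omega)⟩
    · intro n hn n' hn' he
      obtain ⟨j, hj, hij, hjk⟩ := hKj n hn
      obtain ⟨j', hj', hij', hjk'⟩ := hKj n' hn'
      have he' : Tp.fac B i0 (j - i0) = Tp.fac B i0 (j' - i0) := by
        rw [← hρ n j hj, ← hρ n' j' hj']
        exact he
      rw [Tp.fac.injEq] at he'
      have h2 : j = j' := by omega
      refine pt_unique hg (by rw [hj, hj', h2]) fun v hv => ?_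
      rw [hj] at hv
      cases hv
    · intro n hn
      obtain ⟨j, hj, hij, hjk⟩ := hKj n hn
      show (match g n with | .pt _ _ j => Tp.fac B i0 (j - i0) | _ => Tp.fac B 0 0).Ok k ℓ 0 ∧
        (match g n with | .pt _ _ j => Tp.fac B i0 (j - i0) | _ => Tp.fac B 0 0).blk = B
      rw [hρ n j hj]
      exact ⟨⟨hi2, hjk.le⟩, rfl⟩
    · intro n hn n' hn'
      obtain ⟨j, hj, hij, hjk⟩ := hKj n hn
      obtain ⟨j', hj', hij', hjk'⟩ := hKj n' hn'
      show matT ℓ w d (match g n with | .pt _ _ j => Tp.fac B i0 (j - i0) | _ => Tp.fac B 0 0)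
        (match g n' with | .pt _ _ j => Tp.fac B i0 (j - i0) | _ => Tp.fac B 0 0) = _
      rw [hρ n j hj, hρ n' j' hj']
      by_cases hnn : n = n'
      · subst hnn
        rw [hj, Qw.pt.injEq] at hj'
        obtain ⟨-, -, rfl⟩ := hj'
        unfold matT Lab.mat
        rw [if_pos rfl, if_pos rfl, hj]
        show d (i0 + (j - i0)) = d j
        rw [show i0 + (j - i0) = j by omega]
      · have hjj : j ≠ j' := by
          rintro rfl
          refine hnn (pt_unique hg (by rw [hj, hj']) fun v hv => ?_)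
          rw [hj] at hv
          cases hv
        rw [matT_fac hij hij' hjj]
        unfold Lab.mat
        rw [if_neg hnn, hj, hj']
        exact (psw_pt u v j j').symm

end Pool.H22.DH
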