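import Pool.Agent.H22.DH.Df

/-!
# Indiscernible subdivisions have no other edges (module FC)

Let `T = t + 1`. For different indices `a ≠ b` and `α, β < t` the function
`f n = (n + 1) * T + (if n = a then α else 0) + (if n = b then β else 0)` is strictly monotone. `xx`: let `(i, j) ≠
(i', j')`, `i < j`, `i' < j'`; there are `a ∈ {i, j}`, `a ∉ {i', j'}` and `b ∈ {i', j'}`, `b ∉ {i, j}`. If the
points are adjacent then (`Hom.xx`) all `x (f i) (f j) c` (which depend on `α` only) are adjacent to all
`x (f i') (f j') c'` (which depend on `β` only); they are different for different `α` (`β`) by `Sbd.dis`: this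
contradicts `NoK t` (`Finset.image` over `Finset.range t`). `ss`, `sx`: the same with `Hom.ss`, `Hom.sx` (`k` is
not in `{i, j}`).
-/

set_option autoImplicit false

namespace Pool.H22.DH

open Set Function Pool.H22.D Pool.H22.DI

variable {m : ℕ} {y : Mx (Fin m → Bool)} {r t : ℕ} {s : ℕ → ℕ} {x : ℕ → ℕ → ℕ → ℕ}

private theorem fc_mono {t a b α β : ℕ} (hab : a ≠ b) (ha : α < t) (hb : β < t) :
    StrictMono (fun n : ℕ => (n + 1) * (t + 1) + (if n = a then α else 0) + (if n = b then β else 0)) := by
  apply strictMono_nat_of_lt_succ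
  intro n
  have h1 : (n + 1 + 1) * (t + 1) = (n + 1) * (t + 1) + (t + 1) := by ring
  rw [h1]
  split_ifs <;> omega

private theorem fc_mono' {t a α : ℕ} (ha : α < t) :
    StrictMono (fun n : ℕ => (n + 1) * (t + 1) + (if n = a then α else 0)) := by
  apply strictMono_nat_of_lt_succ
  intro n
  have h1 : (n + 1 + 1) * (t + 1) = (n + 1) * (t + 1) + (t + 1) := by ring
  rw [h1]
  split_ifs <;> omega

private theorem fc_key (hK : NoK t (GA y)) (p q : ℕ → ℕ) (hp : ∀ α < t, ∀ β < t, p α = p β → α = β)
    (hq : ∀ α < t, ∀ β < t, q α = q β → α = β) (h : ∀ α < t, ∀ β < t, Adj y (p α) (q β)) : False := by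
  obtain ⟨u, hu, v, hv, huv⟩ := hK ((Finset.range t).image p) ((Finset.range t).image q)
    (by
      rw [Finset.card_image_of_injOn, Finset.card_range]
      intro α hα β hβ he
      exact hp α (Finset.mem_range.1 (Finset.mem_coe.1 hα)) β (Finset.mem_range.1 (Finset.mem_coe.1 hβ)) he)
    (by
      rw [Finset.card_image_of_injOn, Finset.card_range]
      intro α hα β hβ he
      exact hq α (Finset.mem_range.1 (Finset.mem_coe.1 hα)) β (Finset.mem_range.1 (Finset.mem_coe.1 hβ)) he)
  rw [Finset.mem_image] at hu hv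
  obtain ⟨α, hα, rfl⟩ := hu
  obtain ⟨β, hβ, rfl⟩ := hv
  exact huv (h α (Finset.mem_range.1 hα) β (Finset.mem_range.1 hβ))

private theorem fc_x (h : Sbd (GA y) r s x) {i j c a : ℕ} (hij : i < j) (hc : 0 < c) (hcr : c < r) (ha : a = i ∨ a = j) :
    ∀ α < t, ∀ β < t, x ((i + 1) * (t + 1) + (if i = a then α else 0)) ((j + 1) * (t + 1) + (if j = a then α else 0)) c =
      x ((i + 1) * (t + 1) + (if i = a then β else 0)) ((j + 1) * (t + 1) + (if j = a then β else 0)) c → α = β := by
  intro α hα β hβ he
  have h1 := h.dis _ _ _ _ c c (fc_mono' (a := a) hα hij) (fc_mono' (a := a) hβ hij) hc hcr hc hcr he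
  rcases ha with rfl | rfl
  · have h2 := h1.1
    simp only [if_true] at h2
    omega
  · have h2 := h1.2.1
    simp only [if_true] at h2
    omega

theorem fcl_of_hom (hK : NoK t (GA y)) (h : Sbd (GA y) r s x) (hh : Hom y r s x) : FCl y r s x := by
  have hs : ∀ a : ℕ, ∀ α < t, ∀ β < t, s ((a + 1) * (t + 1) + α) = s ((a + 1) * (t + 1) + β) → α = β := by
    intro a α _ β _ he
    have := h.inj he
    omega
  refine ⟨?_, ?_, ?_⟩
  · intro i j hA
    have hij : i ≠ j := fun he => hA.1 (congrArg s he)
    refine fc_key hK (fun α => s ((i + 1) * (t + 1) + α)) (fun β => s ((j + 1) * (t + 1) + β)) (hs i) (hs j) ?_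
    intro α hα β hβ
    have := (hh.ss _ (fc_mono hij hα hβ) i j).1 hA
    simpa only [if_true, if_neg hij, if_neg hij.symm, Nat.add_zero] using this
  · intro k i j c hij hc hcr hki hkj hA
    refine fc_key hK (fun α => s ((k + 1) * (t + 1) + α))
      (fun β => x ((i + 1) * (t + 1) + (if i = i then β else 0)) ((j + 1) * (t + 1) + (if j = i then β else 0)) c)
      (hs k) (fc_x h hij hc hcr (Or.inl rfl)) ?_
    intro α hα β hβ
    have := (hh.sx _ (fc_mono hki hα hβ) k i j c hij hcr.le).1 hA
    simpa only [if_true, if_neg hki, if_neg hki.symm, if_neg hkj, if_neg hkj.symm, if_neg hij.ne', Nat.add_zero] using this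
  · intro i j c i' j' c' hij hij' hc hcr hc' hcr' hne hA
    obtain ⟨a, ha1, ha2, ha3⟩ : ∃ a, (a = i ∨ a = j) ∧ a ≠ i' ∧ a ≠ j' := by
      by_contra hcon
      push Not at hcon
      have h1 := hcon i (Or.inl rfl)
      have h2 := hcon j (Or.inr rfl)
      apply hne
      by_cases e1 : i = i'
      · by_cases e2 : j = i'
        · omega
        · rw [e1, h2 e2]
      · have e3 := h1 e1
        by_cases e2 : j = i'
        · omega
        · have := h2 e2
          omega
    obtain ⟨b, hb1, hb2, hb3⟩ : ∃ b, (b = i' ∨ b = j') ∧ b ≠ i ∧ b ≠ j := by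
      by_contra hcon
      push Not at hcon
      have h1 := hcon i' (Or.inl rfl)
      have h2 := hcon j' (Or.inr rfl)
      apply hne
      by_cases e1 : i' = i
      · by_cases e2 : j' = i
        · omega
        · rw [e1, h2 e2]
      · have e3 := h1 e1
        by_cases e2 : j' = i
        · omega
        · have := h2 e2
          omega
    have hab : a ≠ b := by
      rintro rfl
      rcases ha1 with rfl | rfl
      · exact hb2 rfl
      · exact hb3 rfl
    refine fc_key hK
      (fun α => x ((i + 1) * (t + 1) + (if i = a then α else 0)) ((j + 1) * (t + 1) + (if j = a then α else 0)) c)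
      (fun β => x ((i' + 1) * (t + 1) + (if i' = b then β else 0)) ((j' + 1) * (t + 1) + (if j' = b then β else 0)) c')
      (fc_x h hij hc hcr ha1) (fc_x h hij' hc' hcr' hb1) ?_
    intro α hα β hβ
    have := (hh.xx _ (fc_mono hab hα hβ) i j c i' j' c' hij hij' hcr.le hcr'.le).1 hA
    simpa only [if_neg hb2.symm, if_neg hb3.symm, if_neg ha2.symm, if_neg ha3.symm, Nat.add_zero] using this

theorem sbd_comp' (h : Sbd (GA y) r s x) {φ : ℕ → ℕ} (hφ : StrictMono φ) :
    Sbd (GA y) r (fun i => s (φ i)) (fun i j => x (φ i) (φ j)) where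
  inj := h.inj.comp hφ.injective
  path i j hij := h.path _ _ (hφ hij)
  fst i j hij := h.fst _ _ (hφ hij)
  lst i j hij := h.lst _ _ (hφ hij)
  dis i j i' j' c c' hij hij' hc hcr hc' hcr' he := by
    obtain ⟨h1, h2, h3⟩ := h.dis _ _ _ _ c c' (hφ hij) (hφ hij') hc hcr hc' hcr' he
    exact ⟨hφ.injective h1, hφ.injective h2, h3⟩
  out i j c k hij hc hcr := h.out _ _ c _ (hφ hij) hc hcr

end Pool.H22.DH
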