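import Pool.Agent.H22.DH.Df
import Pool.Agent.H17.TA.Ram

/-!
# Indiscernible subdivisions (module HM)

`exists_hom`: infinite Ramsey theorem `Pool.H17.TA.ramseyN` for increasing 4-tuples `t : Fin 4 → ℕ`, colours: all
truth values `Adj y (s (t a)) (s (t b))`, `Adj y (s (t a)) (x (t b) (t b') c)`,
`Adj y (x (t a) (t b) c) (x (t a') (t b') c')` for `a, b, a', b' : Fin 4`, `c, c' : Fin (r + 1)`, and the letters and
types of the path `x (t 0) (t 1)` (a finite type). If `i < j`, `i' < j'` choose an increasing 4-tuple `t` whose range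
contains `i, j, i', j'`; `f ∘ t` is increasing too, so `φ ∘ t` and `φ ∘ f ∘ t` have the same colour.
(Auxiliary lemma: for every finite set of at most 4 natural numbers there is an increasing 4-tuple whose
range contains it, `Finset.orderEmbOfFin` after adding large numbers.)
-/

set_option autoImplicit false

namespace Pool.H22.DH

open Set Function Pool.H22.D Pool.H22.DI

variable {m : ℕ} {y : Mx (Fin m → Bool)} {r : ℕ}

private theorem hm_four (F : Finset ℕ) (h : F.card ≤ 4) :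
    ∃ t : Fin 4 → ℕ, StrictMono t ∧ ∀ i ∈ F, ∃ a, t a = i := by
  obtain ⟨F', h1, h2⟩ := Infinite.exists_superset_card_eq F 4 h
  refine ⟨F'.orderEmbOfFin h2, (F'.orderEmbOfFin h2).strictMono, fun i hi => ?_⟩
  have h3 : i ∈ Set.range (F'.orderEmbOfFin h2) := by
    rw [Finset.range_orderEmbOfFin]
    exact h1 hi
  exact h3

private theorem hm_two {i j : ℕ} (h : i < j) : ∃ t : Fin 4 → ℕ, StrictMono t ∧ t 0 = i ∧ t 1 = j := by
  refine ⟨![i, j, j + 1, j + 2], ?_, rfl, rfl⟩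
  intro a b hab
  fin_cases a <;> fin_cases b <;> simp at hab ⊢ <;> omega

/-- the colour of a 4-tuple -/
private def hm_col (y : Mx (Fin m → Bool)) (r : ℕ) (s : ℕ → ℕ) (x : ℕ → ℕ → ℕ → ℕ) (t : Fin 4 → ℕ) :
    (Fin 4 → Fin 4 → Prop) × (Fin 4 → Fin 4 → Fin 4 → Fin (r + 1) → Prop) ×
      (Fin 4 × Fin 4 × Fin (r + 1) → Fin 4 × Fin 4 × Fin (r + 1) → Prop) ×
      (Fin (r + 1) → (Fin m → Bool) × (Fin m → Bool)) × (Fin (r + 1) → Fin m → Bool) :=
  (fun a b => Adj y (s (t a)) (s (t b)), fun a b b' c => Adj y (s (t a)) (x (t b) (t b') c),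
    fun a a' => Adj y (x (t a.1) (t a.2.1) a.2.2) (x (t a'.1) (t a'.2.1) a'.2.2),
    fun c => (y (x (t 0) (t 1) c) (x (t 0) (t 1) (c + 1)), y (x (t 0) (t 1) (c + 1)) (x (t 0) (t 1) c)),
    fun c => y (x (t 0) (t 1) c) (x (t 0) (t 1) c))

theorem exists_hom (y : Mx (Fin m → Bool)) (r : ℕ) (s : ℕ → ℕ) (x : ℕ → ℕ → ℕ → ℕ) :
    ∃ φ : ℕ → ℕ, StrictMono φ ∧ Hom y r (fun i => s (φ i)) (fun i j => x (φ i) (φ j)) := by
  classical
  have i1 : Finite (Fin 4 → Fin 4 → Prop) := inferInstance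
  have i2 : Finite (Fin 4 → Fin 4 → Fin 4 → Fin (r + 1) → Prop) := inferInstance
  have i3 : Finite (Fin 4 × Fin 4 × Fin (r + 1) → Fin 4 × Fin 4 × Fin (r + 1) → Prop) := inferInstance
  have i4 : Finite (Fin (r + 1) → (Fin m → Bool) × (Fin m → Bool)) := inferInstance
  have i5 : Finite (Fin (r + 1) → Fin m → Bool) := inferInstance
  have i6 := @Finite.instProd _ _ i4 i5
  have i7 := @Finite.instProd _ _ i3 i6
  have i8 := @Finite.instProd _ _ i2 i7
  have i9 := @Finite.instProd _ _ i1 i8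
  obtain ⟨φ, hφ, hc⟩ := @Pool.H17.TA.ramseyN _ i9 4 (hm_col y r s x)
  refine ⟨φ, hφ, ?_, ?_, ?_, ?_, ?_⟩
  · intro f hf i j
    obtain ⟨t, ht, hti⟩ := hm_four {i, j} (Finset.card_le_two.trans (by norm_num))
    obtain ⟨a, rfl⟩ := hti i (by simp)
    obtain ⟨b, rfl⟩ := hti j (by simp)
    have h1 := hc t (f ∘ t) ht (hf.comp ht)
    have h2 := congrFun (congrFun (congrArg Prod.fst h1) a) b
    exact iff_of_eq h2
  · intro f hf k i j c _ hcr
    obtain ⟨t, ht, hti⟩ := hm_four {k, i, j} (Finset.card_le_three.trans (by norm_num))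
    obtain ⟨e, rfl⟩ := hti k (by simp)
    obtain ⟨a, rfl⟩ := hti i (by simp)
    obtain ⟨b, rfl⟩ := hti j (by simp)
    have h1 := hc t (f ∘ t) ht (hf.comp ht)
    have h2 := congrFun (congrFun (congrFun (congrFun (congrArg (fun z => z.2.1) h1) e) a) b)
      (⟨c, Nat.lt_succ_of_le hcr⟩ : Fin (r + 1))
    exact iff_of_eq h2
  · intro f hf i j c i' j' c' _ _ hcr hcr'
    obtain ⟨t, ht, hti⟩ := hm_four {i, j, i', j'} Finset.card_le_four
    obtain ⟨a, rfl⟩ := hti i (by simp)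
    obtain ⟨b, rfl⟩ := hti j (by simp)
    obtain ⟨a', rfl⟩ := hti i' (by simp)
    obtain ⟨b', rfl⟩ := hti j' (by simp)
    have h1 := hc t (f ∘ t) ht (hf.comp ht)
    have h2 := congrFun (congrFun (congrArg (fun z => z.2.2.1) h1)
      (a, b, (⟨c, Nat.lt_succ_of_le hcr⟩ : Fin (r + 1)))) (a', b', (⟨c', Nat.lt_succ_of_le hcr'⟩ : Fin (r + 1)))
    exact iff_of_eq h2
  · intro i j i' j' hij hij' c hcr
    obtain ⟨t, ht, rfl, rfl⟩ := hm_two hij
    obtain ⟨t', ht', rfl, rfl⟩ := hm_two hij'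
    have h1 := hc t t' ht ht'
    have h2 := congrFun (congrArg (fun z => z.2.2.2.1) h1) (⟨c, by omega⟩ : Fin (r + 1))
    exact ⟨congrArg Prod.fst h2, congrArg Prod.snd h2⟩
  · intro i j i' j' hij hij' c hcr
    obtain ⟨t, ht, rfl, rfl⟩ := hm_two hij
    obtain ⟨t', ht', rfl, rfl⟩ := hm_two hij'
    have h1 := hc t t' ht ht'
    exact congrFun (congrArg (fun z => z.2.2.2.2) h1) (⟨c, by omega⟩ : Fin (r + 1))

end Pool.H22.DH
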