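import Pool.Agent.H22.DH.St

/-!
# The universal structure in `y` (module TT)

For every finite set `F` there is a block outside `F`: a star `(s, π)` (`exists_star`, only the legs `c < N`
are used) and for every `i` with `i + k ≤ ℓ` a path `p i` (`PI.fac`). A sequence of blocks, each one outside of
the points of the blocks before; enumerate the points of a block by `Fin M` (all blocks by the same formula; the
blocks are pairwise disjoint, points may be repeated in the enumeration) and pass by `unlink` to a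
subsequence without edges between different blocks. Let `ρ (ctr b)`, `ρ (leg b o c j)` be the points of the star of
the block number `Nat.pair b 0`, and `ρ (fac b i j)` the point `p i j` of the block number `Nat.pair b (i + 1)`.
Relations inside a star or inside a path: `SpI`, `IPth` (no relation between points which are not
consecutive: both values of `y` are the constant `false`, `Adj`), `Rd`; everything else: different blocks.
-/

set_option autoImplicit false

namespace Pool.H22.DH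

open Set Function Pool.H22.D Pool.H22.DI

variable {m t k ℓ : ℕ} {y : Mx (Fin m → Bool)} {S : Set ℕ} {w : ℕ → Ltr m} {d : ℕ → Tv m}

/-- blocks: centre, legs, paths -/
private abbrev TtB : Type := ℕ × (Bool → ℕ → ℕ → ℕ) × (ℕ → ℕ → ℕ)

private def ttPt (B : TtB) : Tp → ℕ
  | .ctr _ => B.1
  | .leg _ o c j => B.2.1 o c j
  | .fac _ i j => B.2.2 i j

private def ttNum : Tp → ℕ
  | .ctr b => Nat.pair b 0
  | .leg b _ _ _ => Nat.pair b 0
  | .fac b i _ => Nat.pair b (i + 1)

private abbrev TtI (k ℓ N : ℕ) : Type :=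
  Option (Bool × Fin N × Fin k) ⊕ (Fin (ℓ + 1) × Fin (k + 1))

private def ttIx (k ℓ N : ℕ) : TtI k ℓ N → Tp
  | .inl none => .ctr 0
  | .inl (some a) => .leg 0 a.1 a.2.1 (a.2.2 + 1)
  | .inr a => if (a.1 : ℕ) + k ≤ ℓ then .fac 0 a.1 a.2 else .ctr 0

private theorem ttIx_ok (k ℓ N : ℕ) (a : TtI k ℓ N) : (ttIx k ℓ N a).Ok k ℓ N := by
  rcases a with (_ | ⟨o, c, j⟩) | ⟨i, j⟩
  · trivial
  · exact ⟨c.2, by omega, by have := j.2; omega⟩
  · change Tp.Ok k ℓ N (if (i : ℕ) + k ≤ ℓ then .fac 0 i j else .ctr 0)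
    split_ifs with h
    · exact ⟨h, by have := j.2; omega⟩
    · trivial

private theorem ttIx_surj {k ℓ N : ℕ} {q : Tp} (hq : q.Ok k ℓ N) :
    ∃ a : TtI k ℓ N, ∀ B, ttPt B (ttIx k ℓ N a) = ttPt B q := by
  cases q with
  | ctr b => exact ⟨.inl none, fun B => rfl⟩
  | leg b o c j =>
    obtain ⟨h1, h2, h3⟩ := hq
    refine ⟨.inl (some (o, ⟨c, h1⟩, ⟨j - 1, by omega⟩)), fun B => ?_⟩
    change B.2.1 o c (j - 1 + 1) = B.2.1 o c j
    rw [Nat.sub_add_cancel h2]
  | fac b i j =>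
    obtain ⟨h1, h2⟩ := hq
    refine ⟨.inr (⟨i, by omega⟩, ⟨j, by omega⟩), fun B => ?_⟩
    change ttPt B (if i + k ≤ ℓ then .fac 0 i j else .ctr 0) = B.2.2 i j
    rw [if_pos h1]
    rfl

private structure TtG (y : Mx (Fin m → Bool)) (k ℓ : ℕ) (w : ℕ → Ltr m) (d : ℕ → Tv m) (B : TtB) :
    Prop where
  sp : SpI y k ℓ w d B.1 B.2.1
  pa : ∀ i, i + k ≤ ℓ → IPth (GA y) k (B.2.2 i)
  rd : ∀ i, i + k ≤ ℓ → Rd y (fun j => w (i + j)) (fun j => d (i + j)) k (B.2.2 i)

private theorem tt_finite (B : TtB) (k ℓ N : ℕ) : {x | ∃ q : Tp, q.Ok k ℓ N ∧ ttPt B q = x}.Finite := by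
  refine (Set.finite_range fun a : TtI k ℓ N => ttPt B (ttIx k ℓ N a)).subset ?_
  rintro x ⟨q, hq, rfl⟩
  obtain ⟨a, ha⟩ := ttIx_surj hq
  exact ⟨a, ha B⟩

private theorem tt_block (hK : NoK t (GA y)) (h : PI y S k ℓ w d) (N : ℕ) {F : Set ℕ} (hF : F.Finite) :
    ∃ B : TtB, TtG y k ℓ w d B ∧ ∀ q : Tp, q.Ok k ℓ N → ttPt B q ∉ F := by
  obtain ⟨s, hs, hsF⟩ := h.inf.exists_notMem_finite hF
  obtain ⟨π, hπ, hπF⟩ := exists_star hK h hs hF hsF
  have hp : ∀ i, ∃ p, i + k ≤ ℓ → IPth (GA y) k p ∧ (∀ j ≤ k, p j ∉ F) ∧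
      Rd y (fun j => w (i + j)) (fun j => d (i + j)) k p := by
    intro i
    by_cases hi : i + k ≤ ℓ
    · obtain ⟨p, hp⟩ := h.fac i hi F hF
      exact ⟨p, fun _ => hp⟩
    · exact ⟨id, fun hi' => absurd hi' hi⟩
  choose p hp using hp
  refine ⟨(s, π, p), ⟨hπ, fun i hi => (hp i hi).1, fun i hi => (hp i hi).2.2⟩, ?_⟩
  intro q hq
  cases q with
  | ctr b => exact hsF
  | leg b o c j => exact hπF o c j hq.2.2
  | fac b i j => exact (hp i hq.1).2.1 j hq.2

private theorem tt_false {u v : ℕ} (h1 : u ≠ v) (h2 : ¬ Adj y u v) : y u v = fun _ => false := by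
  funext i
  by_contra h3
  exact h2 ⟨h1, i, Or.inl (by simpa using h3)⟩

/-- the values of `y` on a path -/
private theorem tt_path {w' : ℕ → Ltr m} {d' : ℕ → Tv m} {p : ℕ → ℕ} (hp : IPth (GA y) k p)
    (hr : Rd y w' d' k p) {j j' : ℕ} (hj : j ≤ k) (hj' : j' ≤ k) :
    y (p j) (p j') = if j = j' then d' j else if j' = j + 1 then (w' j).1 else
      if j = j' + 1 then (w' j').2 else fun _ => false := by
  split_ifs with h1 h2 h3
  · subst h1
    exact hr.2 j hj
  · subst h2
    exact (hr.1 j (by omega)).1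
  · subst h3
    exact (hr.1 j' (by omega)).2
  · refine tt_false (fun h4 => h1 (hp.inj hj hj' h4)) fun h4 => ?_
    have h5 := (hp.adj j hj j' hj').1 h4
    rcases h5 with h5 | h5
    · exact h2 h5
    · exact h3 h5

private def ttW (ℓ : ℕ) (w : ℕ → Ltr m) (o : Bool) : ℕ → Ltr m := fun j => if o = true then w j else rvw ℓ w j

private def ttD (ℓ : ℕ) (d : ℕ → Tv m) (o : Bool) : ℕ → Tv m := fun j => if o = true then d j else rvd ℓ d j

private theorem tt_mat_none {q q' : Tp} (h : q ≠ q') (h1 : stt ℓ w q q' = none)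
    (h2 : stt ℓ w q' q = none) : matT ℓ w d q q' = fun _ => false := by
  unfold matT
  rw [if_neg h, h1, h2]

private theorem tt_mat_some {q q' : Tp} {l : Ltr m} (h : q ≠ q') (h1 : stt ℓ w q q' = some l) :
    matT ℓ w d q q' = l.1 := by
  unfold matT
  rw [if_neg h, h1]

private theorem tt_mat_some' {q q' : Tp} {l : Ltr m} (h : q ≠ q') (h1 : stt ℓ w q q' = none)
    (h2 : stt ℓ w q' q = some l) : matT ℓ w d q q' = l.2 := by
  unfold matT
  rw [if_neg h, h1, h2]

private theorem tt_mat_self (q : Tp) : matT ℓ w d q q = dgt ℓ d q := by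
  unfold matT
  rw [if_pos rfl]

private theorem stt_cl (b b' : ℕ) (o : Bool) (c j : ℕ) : stt ℓ w (.ctr b) (.leg b' o c j) =
    if b = b' ∧ j = 1 then some (ttW ℓ w o 0) else none := rfl

private theorem stt_ll (b b' : ℕ) (o o' : Bool) (c c' j j' : ℕ) :
    stt ℓ w (.leg b o c j) (.leg b' o' c' j') =
    if b = b' ∧ o = o' ∧ c = c' ∧ j' = j + 1 then some (ttW ℓ w o j) else none := rfl

private theorem stt_ff (b b' i i' j j' : ℕ) :
    stt ℓ w (.fac b i j) (.fac b' i' j') =
    if b = b' ∧ i = i' ∧ j' = j + 1 then some (w (i + j)) else none := rfl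

private theorem stt_num {q q' : Tp} (h : ttNum q ≠ ttNum q') : stt ℓ w q q' = none := by
  cases q with
  | ctr b =>
    cases q' with
    | ctr b' => rfl
    | leg b' o c j =>
      rw [stt_cl, if_neg]
      rintro ⟨h1, -⟩
      subst h1
      exact h rfl
    | fac b' i j => rfl
  | leg b o c j =>
    cases q' with
    | ctr b' => rfl
    | leg b' o' c' j' =>
      rw [stt_ll, if_neg]
      rintro ⟨h1, -⟩
      subst h1
      exact h rfl
    | fac b' i j => rfl
  | fac b i j =>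
    cases q' with
    | ctr b' => rfl
    | leg b' o' c' j' => rfl
    | fac b' i' j' =>
      rw [stt_ff, if_neg]
      rintro ⟨h1, h2, -⟩
      subst h1
      subst h2
      exact h rfl

/-- the values on one leg, including the centre -/
private theorem tt_mat_leg (b : ℕ) (o : Bool) (c j j' : ℕ) :
    matT ℓ w d (.leg b o c j) (.leg b o c j') = if j = j' then ttD ℓ d o j else
      if j' = j + 1 then (ttW ℓ w o j).1 else if j = j' + 1 then (ttW ℓ w o j').2 else
        fun _ => false := by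
  split_ifs with h1 h2 h3
  · subst h1
    rw [tt_mat_self]
    rfl
  · refine tt_mat_some (l := ttW ℓ w o j) (fun h => h1 (by injection h)) ?_
    rw [stt_ll, if_pos ⟨rfl, rfl, rfl, h2⟩]
  · refine tt_mat_some' (l := ttW ℓ w o j') (fun h => h1 (by injection h)) ?_ ?_
    · rw [stt_ll, if_neg (fun h => h2 h.2.2.2)]
    · rw [stt_ll, if_pos ⟨rfl, rfl, rfl, h3⟩]
  · refine tt_mat_none (fun h => h1 (by injection h)) ?_ ?_
    · rw [stt_ll, if_neg (fun h => h2 h.2.2.2)]
    · rw [stt_ll, if_neg (fun h => h3 h.2.2.2)]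

private theorem tt_mat_leg' (b : ℕ) (o o' : Bool) (c c' j j' : ℕ) (h : (o, c) ≠ (o', c')) :
    matT ℓ w d (.leg b o c j) (.leg b o' c' j') = fun _ => false := by
  have h1 : ¬ (o = o' ∧ c = c') := by
    rintro ⟨h1, h2⟩
    exact h (by rw [h1, h2])
  refine tt_mat_none (fun h2 => h1 ?_) ?_ ?_
  · injection h2 with _ h3 h4
    exact ⟨h3, h4⟩
  · rw [stt_ll, if_neg (fun h2 => h1 ⟨h2.2.1, h2.2.2.1⟩)]
  · rw [stt_ll, if_neg (fun h2 => h1 ⟨h2.2.1.symm, h2.2.2.1.symm⟩)]

private theorem tt_mat_ctr (b : ℕ) (o : Bool) (c j : ℕ) :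
    matT ℓ w d (.ctr b) (.leg b o c j) = if j = 1 then (ttW ℓ w o 0).1 else fun _ => false := by
  have h0 : (Tp.ctr b) ≠ (.leg b o c j) := fun h => by injection h
  split_ifs with h1
  · refine tt_mat_some (l := ttW ℓ w o 0) h0 ?_
    rw [stt_cl, if_pos ⟨rfl, h1⟩]
  · refine tt_mat_none h0 ?_ rfl
    rw [stt_cl, if_neg (fun h => h1 h.2)]

private theorem tt_mat_ctr' (b : ℕ) (o : Bool) (c j : ℕ) :
    matT ℓ w d (.leg b o c j) (.ctr b) = if j = 1 then (ttW ℓ w o 0).2 else fun _ => false := by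
  have h0 : (.leg b o c j) ≠ (Tp.ctr b) := fun h => by injection h
  split_ifs with h1
  · refine tt_mat_some' (l := ttW ℓ w o 0) h0 rfl ?_
    rw [stt_cl, if_pos ⟨rfl, h1⟩]
  · refine tt_mat_none h0 rfl ?_
    rw [stt_cl, if_neg (fun h => h1 h.2)]

private theorem tt_mat_fac (b i j j' : ℕ) :
    matT ℓ w d (.fac b i j) (.fac b i j') = if j = j' then d (i + j) else
      if j' = j + 1 then (w (i + j)).1 else if j = j' + 1 then (w (i + j')).2 else
        fun _ => false := by
  split_ifs with h1 h2 h3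
  · subst h1
    rw [tt_mat_self]
    rfl
  · refine tt_mat_some (l := w (i + j)) (fun h => h1 (by injection h)) ?_
    rw [stt_ff, if_pos ⟨rfl, rfl, h2⟩]
  · refine tt_mat_some' (l := w (i + j')) (fun h => h1 (by injection h)) ?_ ?_
    · rw [stt_ff, if_neg (fun h => h2 h.2.2)]
    · rw [stt_ff, if_pos ⟨rfl, rfl, h3⟩]
  · refine tt_mat_none (fun h => h1 (by injection h)) ?_ ?_
    · rw [stt_ff, if_neg (fun h => h2 h.2.2)]
    · rw [stt_ff, if_neg (fun h => h3 h.2.2)]

/-- the values of `y` in one leg -/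
private theorem tt_leg {B : TtB} (hB : TtG y k ℓ w d B) (o : Bool) (c : ℕ) :
    Rd y (ttW ℓ w o) (ttD ℓ d o) k (B.2.1 o c) := by
  cases o
  · exact hB.sp.rdi c
  · exact hB.sp.rdo c

/-- one block -/
private theorem tt_in {B : TtB} (hB : TtG y k ℓ w d B) {N : ℕ} {q q' : Tp} (hq : q.Ok k ℓ N)
    (hq' : q'.Ok k ℓ N) (hn : ttNum q = ttNum q') :
    (ttPt B q = ttPt B q' → q = q') ∧ y (ttPt B q) (ttPt B q') = matT ℓ w d q q' := by
  cases q with
  | ctr b =>
    cases q' with
    | ctr b' =>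
      have hb : b = b' := (Nat.pair_eq_pair.1 hn).1
      subst hb
      refine ⟨fun _ => rfl, ?_⟩
      rw [tt_mat_self]
      have h1 := (hB.sp.rdo 0).2 0 (Nat.zero_le k)
      rw [hB.sp.ctr] at h1
      exact h1
    | leg b' o c j =>
      have hb : b = b' := (Nat.pair_eq_pair.1 hn).1
      subst hb
      obtain ⟨h1, h2, h3⟩ := hq'
      change (B.1 = B.2.1 o c j → _) ∧ y B.1 (B.2.1 o c j) = _
      rw [← hB.sp.ctr o c]
      constructor
      · intro h4
        have h5 := (hB.sp.leg o c).inj (Nat.zero_le k) h3 h4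
        omega
      · rw [tt_path (hB.sp.leg o c) (tt_leg hB o c) (Nat.zero_le k) h3, tt_mat_ctr,
          if_neg (by omega : ¬ 0 = j), if_neg (by omega : ¬ 0 = j + 1)]
    | fac b' i j =>
      have := (Nat.pair_eq_pair.1 hn).2
      omega
  | leg b o c j =>
    obtain ⟨h1, h2, h3⟩ := hq
    cases q' with
    | ctr b' =>
      have hb : b = b' := (Nat.pair_eq_pair.1 hn).1
      subst hb
      change (B.2.1 o c j = B.1 → _) ∧ y (B.2.1 o c j) B.1 = _
      rw [← hB.sp.ctr o c]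
      constructor
      · intro h4
        have h5 := (hB.sp.leg o c).inj h3 (Nat.zero_le k) h4
        omega
      · rw [tt_path (hB.sp.leg o c) (tt_leg hB o c) h3 (Nat.zero_le k), tt_mat_ctr',
          if_neg (by omega : ¬ j = 0), if_neg (by omega : ¬ 0 = j + 1)]
    | leg b' o' c' j' =>
      have hb : b = b' := (Nat.pair_eq_pair.1 hn).1
      subst hb
      obtain ⟨h1', h2', h3'⟩ := hq'
      change (B.2.1 o c j = B.2.1 o' c' j' → _) ∧ y (B.2.1 o c j) (B.2.1 o' c' j') = _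
      by_cases hoc : (o, c) = (o', c')
      · obtain ⟨rfl, rfl⟩ := Prod.mk.inj hoc
        constructor
        · intro h4
          have h5 := (hB.sp.leg o c).inj h3 h3' h4
          rw [h5]
        · rw [tt_path (hB.sp.leg o c) (tt_leg hB o c) h3 h3', tt_mat_leg]
      · have h6 := hB.sp.dis o c o' c' j j' hoc h2 h3 h2' h3'
        constructor
        · intro h4
          exact absurd h4 h6.1
        · rw [tt_mat_leg' _ _ _ _ _ _ _ hoc]
          exact tt_false h6.1 h6.2
    | fac b' i j' =>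
      have := (Nat.pair_eq_pair.1 hn).2
      omega
  | fac b i j =>
    obtain ⟨h1, h2⟩ := hq
    cases q' with
    | ctr b' =>
      have := (Nat.pair_eq_pair.1 hn).2
      omega
    | leg b' o' c' j' =>
      have := (Nat.pair_eq_pair.1 hn).2
      omega
    | fac b' i' j' =>
      obtain ⟨h3, h4⟩ := hq'
      obtain ⟨hb, hi⟩ := Nat.pair_eq_pair.1 hn
      have hi' : i = i' := by omega
      subst hb
      subst hi'
      change (B.2.2 i j = B.2.2 i j' → _) ∧ y (B.2.2 i j) (B.2.2 i j') = _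
      constructor
      · intro h5
        have h6 := (hB.pa i h1).inj h2 h4 h5
        rw [h6]
      · rw [tt_path (hB.pa i h1) (hB.rd i h1) h2 h4, tt_mat_fac]

theorem exists_T (hK : NoK t (GA y)) (h : PI y S k ℓ w d) (N : ℕ) : ∃ ρ : Tp → ℕ,
    (∀ q q', q.Ok k ℓ N → q'.Ok k ℓ N → ρ q = ρ q' → q = q') ∧
    ∀ q q', q.Ok k ℓ N → q'.Ok k ℓ N → y (ρ q) (ρ q') = matT ℓ w d q q' := by
  classical
  obtain ⟨f, hf, hr⟩ := exists_seq_of_forall_finset_exists (α := TtB) (TtG y k ℓ w d)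
    (fun B B' => ∀ q q', q.Ok k ℓ N → q'.Ok k ℓ N → ttPt B q ≠ ttPt B' q') (by
      intro T _
      have hY : (⋃ B ∈ T, {x | ∃ q : Tp, q.Ok k ℓ N ∧ ttPt B q = x}).Finite :=
        Set.Finite.biUnion T.finite_toSet fun B _ => tt_finite B k ℓ N
      obtain ⟨B, hB, hB'⟩ := tt_block hK h N hY
      refine ⟨B, hB, ?_⟩
      intro B₀ hB₀ q q' hq hq' heq
      exact hB' q' hq' (Set.mem_iUnion₂.2 ⟨B₀, hB₀, q, hq, heq⟩))
  have hr' : ∀ n n', n ≠ n' → ∀ q q', q.Ok k ℓ N → q'.Ok k ℓ N → ttPt (f n) q ≠ ttPt (f n') q' := by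
    intro n n' hn q q' h1 h2
    rcases lt_or_gt_of_ne hn with h5 | h5
    · exact hr n n' h5 q q' h1 h2
    · exact (hr n' n h5 q' q h2 h1).symm
  obtain ⟨φ, hφ, hun⟩ := unlink (N := Fintype.card (TtI k ℓ N)) hK
    (fun n a => ttPt (f n) (ttIx k ℓ N ((Fintype.equivFin _).symm a)))
    (fun i j a b hij => hr' i j hij _ _ (ttIx_ok _ _ _ _) (ttIx_ok _ _ _ _))
  have hadj : ∀ n n', n ≠ n' → ∀ q q', q.Ok k ℓ N → q'.Ok k ℓ N →
      ¬ Adj y (ttPt (f (φ n)) q) (ttPt (f (φ n')) q') := by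
    intro n n' hn q q' h1 h2
    obtain ⟨a, ha⟩ := ttIx_surj h1
    obtain ⟨b, hb⟩ := ttIx_surj h2
    have h5 := hun n n' hn (Fintype.equivFin _ a) (Fintype.equivFin _ b)
    rw [Equiv.symm_apply_apply, Equiv.symm_apply_apply, ha, hb] at h5
    exact h5
  refine ⟨fun q => ttPt (f (φ (ttNum q))) q, ?_, ?_⟩
  · intro q q' hq hq' heq
    by_cases hn : ttNum q = ttNum q'
    · have h1 : ttPt (f (φ (ttNum q))) q = ttPt (f (φ (ttNum q))) q' := by
        have h2 : ttPt (f (φ (ttNum q))) q = ttPt (f (φ (ttNum q'))) q' := heq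
        rw [h2, hn]
      exact (tt_in (hf _) hq hq' hn).1 h1
    · exact absurd heq (hr' _ _ (fun h1 => hn (hφ.injective h1)) q q' hq hq')
  · intro q q' hq hq'
    change y (ttPt (f (φ (ttNum q))) q) (ttPt (f (φ (ttNum q'))) q') = _
    by_cases hn : ttNum q = ttNum q'
    · rw [← hn]
      exact (tt_in (hf _) hq hq' hn).2
    · rw [tt_mat_none (fun h1 => hn (by rw [h1])) (stt_num hn) (stt_num (Ne.symm hn))]
      exact tt_false (hr' _ _ (fun h1 => hn (hφ.injective h1)) q q' hq hq') (hadj _ _ hn q q' hq hq')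

end Pool.H22.DH
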