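import Pool.Agent.H22.DH.Emt
import Pool.Agent.H22.DH.Tt

/-!
# Coded structures are in the class (module MEM)

Let `y ∈ Hb t F`, `2 * t ≤ k`, all members of `F` have at most `k` elements. If `H ∈ F` had an induced occurrence `f`
in the coded structure: `emb_T` for the range of `f`, then `exists_T` for the `N`: the composition is an induced
occurrence in `y`. If `A`, `B` had `t` elements and all pairs were adjacent in the coded structure: `A ∪ B` has at
most `2 * t ≤ k` elements; the images of `A`, `B` in `y` have `t` elements and all pairs are adjacent (they are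
different by injectivity): contradiction to `NoK t (GA y)`.
-/

set_option autoImplicit false

namespace Pool.H22.DH

open Set Function Pool.H22.D Pool.H22.DI

variable {m t k ℓ : ℕ} {F : Set (FS m)} {y : Mx (Fin m → Bool)} {S : Set ℕ} {w : ℕ → Ltr m}
  {d : ℕ → Tv m} {x : Mx ℕ} {g : ℕ → Qw}

private theorem mem_key (hK : NoK t (GA y)) (h : PI y S k ℓ w d) (hg : (labW ℓ w).Val x g)
    (A : Finset ℕ) (hA : A.card ≤ k) : ∃ τ : ℕ → ℕ, InjOn τ A ∧
      ∀ n ∈ A, ∀ n' ∈ A, y (τ n) (τ n') = (labD ℓ w d).mat x g n n' := by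
  obtain ⟨N, θ, h1, h2, h3⟩ := emb_T (w := w) (d := d) h.len hg A hA
  obtain ⟨ρ, h4, h5⟩ := exists_T hK h N
  refine ⟨fun n => ρ (θ n), ?_, ?_⟩
  · intro n hn n' hn' he
    exact h1 hn hn' (h4 _ _ (h2 n hn) (h2 n' hn') he)
  · intro n hn n' hn'
    exact (h5 _ _ (h2 n hn) (h2 n' hn')).trans (h3 n hn n' hn')

theorem mem_hb (hy : y ∈ Hb t F) (h : PI y S k ℓ w d) (hk : 2 * t ≤ k) (hF : ∀ H ∈ F, H.1 ≤ k)
    (hg : (labW ℓ w).Val x g) : (labD ℓ w d).mat x g ∈ Hb t F := by
  classical
  refine ⟨fun A B hA hB => ?_, fun H hH => ?_⟩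
  · obtain ⟨τ, h1, h2⟩ := mem_key hy.1 h hg (A ∪ B)
      ((Finset.card_union_le A B).trans (by omega))
    have hAs : ∀ a ∈ A, a ∈ A ∪ B := fun a ha => Finset.mem_union_left B ha
    have hBs : ∀ b ∈ B, b ∈ A ∪ B := fun b hb => Finset.mem_union_right A hb
    obtain ⟨a', ha', b', hb', hab⟩ := hy.1 (A.image τ) (B.image τ)
      (by
        rw [Finset.card_image_of_injOn, hA]
        intro a ha b hb he
        exact h1 (Finset.mem_coe.2 (hAs a ha)) (Finset.mem_coe.2 (hAs b hb)) he)
      (by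
        rw [Finset.card_image_of_injOn, hB]
        intro a ha b hb he
        exact h1 (Finset.mem_coe.2 (hBs a ha)) (Finset.mem_coe.2 (hBs b hb)) he)
    rw [Finset.mem_image] at ha' hb'
    obtain ⟨a, ha, rfl⟩ := ha'
    obtain ⟨b, hb, rfl⟩ := hb'
    refine ⟨a, ha, b, hb, fun hadj => hab ?_⟩
    obtain ⟨hne, i, hi⟩ := hadj
    refine ⟨fun he => hne (h1 (Finset.mem_coe.2 (hAs a ha)) (Finset.mem_coe.2 (hBs b hb)) he), i, ?_⟩
    rw [h2 a (hAs a ha) b (hBs b hb), h2 b (hBs b hb) a (hAs a ha)]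
    exact hi
  · rintro ⟨f, hf, hfH⟩
    have hc : (Finset.univ.image f).card ≤ k := by
      refine Finset.card_image_le.trans ?_
      rw [Finset.card_univ, Fintype.card_fin]
      exact hF H hH
    obtain ⟨τ, h1, h2⟩ := mem_key hy.1 h hg (Finset.univ.image f) hc
    have hm : ∀ u, f u ∈ Finset.univ.image f := fun u => Finset.mem_image_of_mem f (Finset.mem_univ u)
    refine hy.2 H hH ⟨fun u => τ (f u), fun u v he => hf (h1 (Finset.mem_coe.2 (hm u))
      (Finset.mem_coe.2 (hm v)) he), fun u v => ?_⟩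
    rw [h2 (f u) (hm u) (f v) (hm v)]
    exact hfH u v

end Pool.H22.DH
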