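import Pool.Agent.H22.DH.Df
import Pool.Agent.H22.DI.Unl

/-!
# Stars and blocks (module STB)

`exists_star`: `s ∈ S`, `s ∉ F`. A sequence of pairs `(p n, p' n)`, `p n` from `PI.out`, `p' n` from `PI.inn` avoiding `F` and
all points of the paths with smaller numbers and `p n` (except `s`); `unlink` for the finite sets
`{p n j, p' n j | 1 ≤ j ≤ k}`: no edges between different numbers after passing to a subsequence; outgoing legs
`π true c = p (2 c)`, ingoing legs `π false c = p' (2 c + 1)`.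
-/

set_option autoImplicit false

namespace Pool.H22.DH

open Set Function Pool.H22.D Pool.H22.DI

variable {m t k ℓ : ℕ} {y : Mx (Fin m → Bool)} {S : Set ℕ} {w : ℕ → Ltr m} {d : ℕ → Tv m}

/-- induced stars in `y` with outgoing and ingoing legs -/
structure SpI (y : Mx (Fin m → Bool)) (k ℓ : ℕ) (w : ℕ → Ltr m) (d : ℕ → Tv m) (s : ℕ)
    (π : Bool → ℕ → ℕ → ℕ) : Prop where
  leg : ∀ o c, IPth (GA y) k (π o c)
  ctr : ∀ o c, π o c 0 = s
  rdo : ∀ c, Rd y w d k (π true c)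
  rdi : ∀ c, Rd y (rvw ℓ w) (rvd ℓ d) k (π false c)
  dis : ∀ o c o' c' j j', (o, c) ≠ (o', c') → 0 < j → j ≤ k → 0 < j' → j' ≤ k →
    π o c j ≠ π o' c' j' ∧ ¬ Adj y (π o c j) (π o' c' j')

/-- pairs of paths from `s` -/
private structure St1 (y : Mx (Fin m → Bool)) (k ℓ : ℕ) (w : ℕ → Ltr m) (d : ℕ → Tv m) (s : ℕ) (F : Set ℕ)
    (q : Bool → ℕ → ℕ) : Prop where
  leg : ∀ o, IPth (GA y) k (q o)
  ctr : ∀ o, q o 0 = s
  rdo : Rd y w d k (q true)
  rdi : Rd y (rvw ℓ w) (rvd ℓ d) k (q false)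
  av : ∀ o j, 0 < j → j ≤ k → q o j ∉ F

theorem exists_star (hK : NoK t (GA y)) (h : PI y S k ℓ w d) {s : ℕ} (hs : s ∈ S) {F : Set ℕ}
    (hF : F.Finite) (hsF : s ∉ F) : ∃ π, SpI y k ℓ w d s π ∧ ∀ o c j, j ≤ k → π o c j ∉ F := by
  classical
  obtain ⟨f, hf, hr⟩ := exists_seq_of_forall_finset_exists (α := Bool → ℕ → ℕ) (St1 y k ℓ w d s F)
    (fun q q' => ∀ o o' j j', 0 < j → j ≤ k → 0 < j' → j' ≤ k → q o j ≠ q' o' j') (by
      intro T _
      have hY : (F ∪ ⋃ q ∈ T, ⋃ o : Bool, (q o) '' (Iic k)).Finite := by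
        refine hF.union (Set.Finite.biUnion T.finite_toSet fun q _ => Set.finite_iUnion fun o => ?_)
        exact (Set.finite_Iic k).image _
      obtain ⟨p, hp1, hp2, hp3, hp4⟩ := h.out s hs _ hY
      obtain ⟨p', hq1, hq2, hq3, hq4⟩ := h.inn s hs _ hY
      have hmem : ∀ q ∈ T, ∀ o j, j ≤ k → q o j ∈ F ∪ ⋃ q ∈ T, ⋃ o : Bool, (q o) '' (Iic k) := by
        intro q hq o j hj
        refine Or.inr (Set.mem_iUnion₂.2 ⟨q, hq, Set.mem_iUnion.2 ⟨o, ⟨j, hj, rfl⟩⟩⟩)
      refine ⟨fun o => if o = true then p else p', ⟨?_, ?_, ?_, ?_, ?_⟩, ?_⟩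
      · intro o
        cases o
        · exact hq1
        · exact hp1
      · intro o
        cases o
        · exact hq2
        · exact hp2
      · exact hp4
      · exact hq4
      · intro o j hj hjk
        cases o
        · exact fun hh => hq3 j hjk hj (Or.inl hh)
        · exact fun hh => hp3 j hjk hj (Or.inl hh)
      · intro q hq o o' j j' _ hjk hj' hjk' heq
        have h1 := hmem q hq o j hjk
        rw [heq] at h1
        cases o'
        · exact hq3 j' hjk' hj' h1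
        · exact hp3 j' hjk' hj' h1)
  have hr' : ∀ n n', n ≠ n' → ∀ o o' j j', 0 < j → j ≤ k → 0 < j' → j' ≤ k → f n o j ≠ f n' o' j' := by
    intro n n' hn o o' j j' h1 h2 h3 h4
    rcases lt_or_gt_of_ne hn with h5 | h5
    · exact hr n n' h5 o o' j j' h1 h2 h3 h4
    · exact (hr n' n h5 o' o j' j h3 h4 h1 h2).symm
  obtain ⟨φ, hφ, hun⟩ := unlink (N := 2 * k) hK
    (fun n a => if (a : ℕ) < k then f n true (a + 1) else f n false (a - k + 1)) (by
      intro i j a b hij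
      have ha := a.2
      have hb := b.2
      split_ifs
      all_goals exact hr' i j hij _ _ _ _ (by omega) (by omega) (by omega) (by omega))
  have hidx : ∀ (o : Bool) (j : ℕ), 0 < j → j ≤ k → ∃ a : Fin (2 * k), ∀ n,
      (if (a : ℕ) < k then f n true (a + 1) else f n false (a - k + 1)) = f n o j := by
    intro o j hj hjk
    cases o
    · refine ⟨⟨k + (j - 1), by omega⟩, fun n => ?_⟩
      rw [if_neg (show ¬ (k + (j - 1) < k) by omega)]
      congr 1
      change k + (j - 1) - k + 1 = j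
      omega
    · refine ⟨⟨j - 1, by omega⟩, fun n => ?_⟩
      rw [if_pos (show j - 1 < k by omega)]
      congr 1
      change j - 1 + 1 = j
      omega
  have hadj : ∀ n n', n ≠ n' → ∀ o o' j j', 0 < j → j ≤ k → 0 < j' → j' ≤ k →
      ¬ Adj y (f (φ n) o j) (f (φ n') o' j') := by
    intro n n' hn o o' j j' h1 h2 h3 h4
    obtain ⟨a, ha⟩ := hidx o j h1 h2
    obtain ⟨b, hb⟩ := hidx o' j' h3 h4
    have h5 := hun n n' hn a b
    rw [ha, hb] at h5
    exact h5
  obtain ⟨ix, hix⟩ : ∃ ix : Bool → ℕ → ℕ, ∀ o c, ix o c = if o = true then 2 * c else 2 * c + 1 :=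
    ⟨_, fun _ _ => rfl⟩
  have hixne : ∀ o c o' c', (o, c) ≠ (o', c') → ix o c ≠ ix o' c' := by
    intro o c o' c' hne heq
    apply hne
    rw [hix, hix] at heq
    cases o <;> cases o' <;> simp at heq ⊢ <;> omega
  refine ⟨fun o c => f (φ (ix o c)) o, ⟨fun o c => (hf _).leg o, fun o c => (hf _).ctr o, fun c => (hf _).rdo,
    fun c => (hf _).rdi, ?_⟩, ?_⟩
  · intro o c o' c' j j' hne h1 h2 h3 h4
    have h5 := hixne o c o' c' hne
    exact ⟨hr' _ _ (fun hh => h5 (hφ.injective hh)) o o' j j' h1 h2 h3 h4, hadj _ _ h5 o o' j j' h1 h2 h3 h4⟩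
  · intro o c j hj
    rcases Nat.eq_zero_or_pos j with h1 | h1
    · subst h1
      change f (φ (ix o c)) o 0 ∉ F
      rw [(hf _).ctr o]
      exact hsF
    · exact (hf _).av o j h1 hj

end Pool.H22.DH
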