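import Pool.Agent.H22.DH.Zg

/-!
# The zigzag word (module ZGB)

`zp_rd`: the path `zp r x i` reads the zigzag word of the word of the paths `x` (`Hom.wd`, `Hom.dg`; the last point
of a block is the first point of the next one: `Sbd.fst`, `Sbd.lst`). `zw_rev`, `zd_rev`: the block number of
`2 * Q * r - 1 - j` is `2 * Q - 1 - j / r` and its position is `r - 1 - j % r`.
-/

set_option autoImplicit false

namespace Pool.H22.DH

open Set Function Pool.H22.D Pool.H22.DI

variable {m : ℕ} {y : Mx (Fin m → Bool)} {r : ℕ} {s : ℕ → ℕ} {x : ℕ → ℕ → ℕ → ℕ}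

private theorem zgb_succ (hr : 0 < r) (h : Sbd (GA y) r s x) {i : ℕ → ℕ} (hi : Zi i) (j : ℕ) :
    zp r x i (j + 1) = if (j / r) % 2 = 0 then x (i (j / r)) (i (j / r + 1)) (j % r + 1)
      else x (i (j / r + 1)) (i (j / r)) (r - (j % r + 1)) := by
  have hc : j % r < r := Nat.mod_lt _ hr
  have hj : r * (j / r) + j % r = j := Nat.div_add_mod j r
  by_cases h1 : j % r + 1 < r
  · have e1 : (j + 1) / r = j / r := by
      conv_lhs => rw [← hj]
      rw [add_assoc, Nat.mul_add_div hr, Nat.div_eq_of_lt h1, add_zero]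
    have e2 : (j + 1) % r = j % r + 1 := by
      conv_lhs => rw [← hj]
      rw [add_assoc, Nat.mul_add_mod, Nat.mod_eq_of_lt h1]
    unfold zp
    rw [e1, e2]
  · have h2 : j % r + 1 = r := by omega
    have e0 : j + 1 = r * (j / r + 1) := by
      rw [mul_add, mul_one]
      omega
    have e1 : (j + 1) / r = j / r + 1 := by
      rw [e0, Nat.mul_div_cancel_left _ hr]
    have e2 : (j + 1) % r = 0 := by
      rw [e0, Nat.mul_mod_right]
    unfold zp
    rw [e1, e2, h2]
    set q := j / r with hq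
    by_cases hq2 : q % 2 = 0
    · obtain ⟨a, ha⟩ : ∃ a, q = 2 * a := ⟨q / 2, by omega⟩
      rw [if_neg (by omega), if_pos hq2, Nat.sub_zero, h.lst _ _ (by rw [ha]; exact hi.dn a),
        h.lst _ _ (by rw [ha]; exact hi.up a)]
    · obtain ⟨a, ha⟩ : ∃ a, q = 2 * a + 1 := ⟨q / 2, by omega⟩
      rw [if_pos (by omega), if_neg hq2, Nat.sub_self, h.fst _ _ (by
          rw [ha]
          exact hi.up (a + 1)), h.fst _ _ (by
          rw [ha]
          exact hi.dn a)]

private theorem zgb_lt {i : ℕ → ℕ} (hi : Zi i) (q : ℕ) :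
    (q % 2 = 0 → i q < i (q + 1)) ∧ (¬ q % 2 = 0 → i (q + 1) < i q) := by
  constructor
  · intro h
    obtain ⟨a, rfl⟩ : ∃ a, q = 2 * a := ⟨q / 2, by omega⟩
    exact hi.up a
  · intro h
    obtain ⟨a, rfl⟩ : ∃ a, q = 2 * a + 1 := ⟨q / 2, by omega⟩
    exact hi.dn a

theorem zp_rd (hr : 0 < r) (h : Sbd (GA y) r s x) (hh : Hom y r s x) {i : ℕ → ℕ} (hi : Zi i)
    (n : ℕ) : Rd y (zw r fun c => (y (x 0 1 c) (x 0 1 (c + 1)), y (x 0 1 (c + 1)) (x 0 1 c)))
      (zd r fun c => y (x 0 1 c) (x 0 1 c)) n (zp r x i) := by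
  refine ⟨fun j _ => ?_, fun j _ => ?_⟩
  · rw [zgb_succ hr h hi]
    have hc : j % r < r := Nat.mod_lt _ hr
    unfold zp zw
    by_cases hq : (j / r) % 2 = 0
    · rw [if_pos hq, if_pos hq, if_pos hq]
      exact hh.wd _ _ 0 1 ((zgb_lt hi _).1 hq) one_pos _ hc
    · rw [if_neg hq, if_neg hq, if_neg hq]
      obtain ⟨c', hc'⟩ : ∃ c', c' = r - 1 - j % r := ⟨_, rfl⟩
      have e1 : r - j % r = c' + 1 := by omega
      have e2 : r - (j % r + 1) = c' := by omega
      rw [e1, e2, ← hc']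
      have h1 := hh.wd _ _ 0 1 ((zgb_lt hi _).2 hq) one_pos c' (by omega)
      exact ⟨h1.2, h1.1⟩
  · have hc : j % r < r := Nat.mod_lt _ hr
    unfold zp zd
    by_cases hq : (j / r) % 2 = 0
    · rw [if_pos hq, if_pos hq]
      exact hh.dg _ _ 0 1 ((zgb_lt hi _).1 hq) one_pos _ hc.le
    · rw [if_neg hq, if_neg hq]
      exact hh.dg _ _ 0 1 ((zgb_lt hi _).2 hq) one_pos _ (Nat.sub_le _ _)

/-- the zigzag word is symmetric -/
theorem zw_rev (hr : 0 < r) (W : ℕ → Ltr m) (Q j : ℕ) (hj : j < 2 * Q * r) :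
    rvw (2 * Q * r) (zw r W) j = zw r W j := by
  have hc : j % r < r := Nat.mod_lt _ hr
  have hj' : r * (j / r) + j % r = j := Nat.div_add_mod j r
  have hq : j / r < 2 * Q := by
    rw [Nat.div_lt_iff_lt_mul hr]
    exact hj
  obtain ⟨t, ht⟩ : ∃ t, 2 * Q = j / r + 1 + t := ⟨2 * Q - (j / r + 1), by omega⟩
  have e0 : 2 * Q * r - 1 - j = r * t + (r - 1 - j % r) := by
    have e : 2 * Q * r = r * (j / r) + r + r * t := by
      rw [ht]
      ring
    omega
  have e1 : (2 * Q * r - 1 - j) / r = t := by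
    rw [e0, Nat.mul_add_div hr, Nat.div_eq_of_lt (by omega), add_zero]
  have e2 : (2 * Q * r - 1 - j) % r = r - 1 - j % r := by
    rw [e0, Nat.mul_add_mod, Nat.mod_eq_of_lt (by omega)]
  unfold rvw zw
  rw [e1, e2]
  by_cases h1 : (j / r) % 2 = 0
  · rw [if_pos h1, if_neg (by omega), show r - 1 - (r - 1 - j % r) = j % r by omega]
    rfl
  · rw [if_neg h1, if_pos (by omega)]

theorem zd_rev (hr : 0 < r) (D : ℕ → Tv m) (Q j : ℕ) (hj : j ≤ 2 * Q * r) :
    rvd (2 * Q * r) (zd r D) j = zd r D j := by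
  have hc : j % r < r := Nat.mod_lt _ hr
  have hj' : r * (j / r) + j % r = j := Nat.div_add_mod j r
  have hq : j / r ≤ 2 * Q := by
    rw [← Nat.mul_div_cancel (2 * Q) hr]
    exact Nat.div_le_div_right hj
  obtain ⟨t, ht⟩ : ∃ t, 2 * Q = j / r + t := ⟨2 * Q - j / r, by omega⟩
  have e : 2 * Q * r = r * (j / r) + r * t := by
    rw [ht]
    ring
  unfold rvd zd
  rcases Nat.eq_zero_or_pos (j % r) with h0 | h0
  · have e0 : 2 * Q * r - j = r * t := by omega
    have e1 : (2 * Q * r - j) / r = t := by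
      rw [e0, Nat.mul_div_cancel_left _ hr]
    have e2 : (2 * Q * r - j) % r = 0 := by
      rw [e0, Nat.mul_mod_right]
    rw [e1, e2, h0]
    by_cases h1 : (j / r) % 2 = 0
    · rw [if_pos h1, if_pos (by omega)]
    · rw [if_neg h1, if_neg (by omega)]
  · have ht0 : 0 < t := by
      rcases Nat.eq_zero_or_pos t with rfl | h
      · rw [mul_zero] at e
        omega
      · exact h
    obtain ⟨t', rfl⟩ : ∃ t', t = t' + 1 := ⟨t - 1, by omega⟩
    have e0 : 2 * Q * r - j = r * t' + (r - j % r) := by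
      rw [mul_add, mul_one] at e
      omega
    have e1 : (2 * Q * r - j) / r = t' := by
      rw [e0, Nat.mul_add_div hr, Nat.div_eq_of_lt (by omega), add_zero]
    have e2 : (2 * Q * r - j) % r = r - j % r := by
      rw [e0, Nat.mul_add_mod, Nat.mod_eq_of_lt (by omega)]
    rw [e1, e2]
    by_cases h1 : (j / r) % 2 = 0
    · rw [if_pos h1, if_neg (by omega), show r - (r - j % r) = j % r by omega]
    · rw [if_neg h1, if_pos (by omega)]

end Pool.H22.DH
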