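import Pool.Agent.H22.DH.ZaA
import Pool.Agent.H22.DH.ZgB
import Pool.Agent.H22.DH.Hm
import Pool.Agent.H22.DH.Fc
import Pool.Agent.H22.DI.SbA
import Pool.Agent.H22.DI.Geo

/-!
# The case of bounded distances (module ZA)

`pi_of_sc`: `exists_sbd` (`DI/SbA`), `exists_hom`, `sbd_comp'`, `fcl_of_hom`; the word is the zigzag word,
`ℓ = 2 * (k + 1) * r`, `S' = range s`; `out`: `zi_avoid`, `zp_ipth` (`ipth_trunc` of `DI/Geo`), `zp_rd`
(`zp r x i 0 = s (i 0)`); `inn`: the same paths, `zw_rev`, `zd_rev`; `fac`: the part of `zp r x i` (`zi_avoid'`)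
from `i` on; `dl`: `zd` at `ℓ` and at `0`; `nz`: consecutive points of the paths are adjacent
(`zp_ipth`, `zp_rd`).
-/

set_option autoImplicit false

namespace Pool.H22.DH

open Set Function Pool.H22.D Pool.H22.DI

variable {m : ℕ} {y : Mx (Fin m → Bool)} {r t : ℕ} {s : ℕ → ℕ} {x : ℕ → ℕ → ℕ → ℕ}

private theorem rd_rev {w : ℕ → Ltr m} {d : ℕ → Tv m} {ℓ n : ℕ} {p : ℕ → ℕ} (hn : n ≤ ℓ)
    (hw : ∀ j < ℓ, rvw ℓ w j = w j) (hd : ∀ j ≤ ℓ, rvd ℓ d j = d j) (h : Rd y w d n p) :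
    Rd y (rvw ℓ w) (rvd ℓ d) n p := by
  refine ⟨fun j hj => ?_, fun j hj => ?_⟩
  · rw [hw j (hj.trans_le hn)]
    exact h.1 j hj
  · rw [hd j (hj.trans hn)]
    exact h.2 j hj

private theorem rd_shift {w : ℕ → Ltr m} {d : ℕ → Tv m} {i k : ℕ} {p : ℕ → ℕ} (h : Rd y w d (i + k) p) :
    Rd y (fun j => w (i + j)) (fun j => d (i + j)) k (fun j => p (i + j)) := by
  refine ⟨fun j hj => h.1 (i + j) (by omega), fun j hj => h.2 (i + j) (by omega)⟩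

private theorem ipth_shift {G : SimpleGraph ℕ} {i k : ℕ} {p : ℕ → ℕ} (h : IPth G (i + k) p) :
    IPth G k (fun j => p (i + j)) := by
  refine ⟨fun a ha b hb hab => ?_, fun a ha b hb => ?_⟩
  · have h1 := h.inj (show i + a ∈ Iic (i + k) from by simp only [mem_Iic] at ha ⊢; omega)
      (show i + b ∈ Iic (i + k) from by simp only [mem_Iic] at hb ⊢; omega) hab
    omega
  · rw [h.adj (i + a) (by omega) (i + b) (by omega)]
    omega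

private theorem zp_zero (h0 : 0 < r) (h : Sbd (GA y) r s x) {i : ℕ → ℕ} (hi : Zi i) : zp r x i 0 = s (i 0) := by
  have h1 := hi.up 0
  unfold zp
  rw [Nat.zero_div, Nat.zero_mod, Nat.zero_mod, if_pos rfl]
  exact h.fst _ _ h1

theorem pi_of_sc (hK : NoK t (GA y)) {S : Set ℕ} (hi : S.Infinite) (h0 : 0 < r)
    (h : ∀ u ∈ S, ∀ v ∈ S, u ≠ v → Sc (GA y) r u v ∧ ¬ Sc (GA y) (r - 1) u v) (k : ℕ) :
    ∃ S' ℓ w d, PI y S' k ℓ w d := by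
  obtain ⟨s0, x0, hs0, -⟩ := exists_sbd hi h0 h
  obtain ⟨φ, hφ, hh⟩ := exists_hom y r s0 x0
  have hsb := sbd_comp' hs0 hφ
  have hf := fcl_of_hom hK hsb hh
  obtain ⟨s, hs⟩ : ∃ s : ℕ → ℕ, s = fun i => s0 (φ i) := ⟨_, rfl⟩
  obtain ⟨x, hx⟩ : ∃ x : ℕ → ℕ → ℕ → ℕ, x = fun i j => x0 (φ i) (φ j) := ⟨_, rfl⟩
  rw [← hs, ← hx] at hh hsb hf
  obtain ⟨W, hW⟩ : ∃ W : ℕ → Ltr m, W = fun c => (y (x 0 1 c) (x 0 1 (c + 1)), y (x 0 1 (c + 1)) (x 0 1 c)) := ⟨_, rfl⟩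
  obtain ⟨D, hD⟩ : ∃ D : ℕ → Tv m, D = fun c => y (x 0 1 c) (x 0 1 c) := ⟨_, rfl⟩
  have hrd : ∀ i : ℕ → ℕ, Zi i → ∀ n, Rd y (zw r W) (zd r D) n (zp r x i) := by
    intro i hi n
    rw [hW, hD]
    exact zp_rd h0 hsb hh hi n
  have hlen : 2 * k < 2 * (k + 1) * r := by nlinarith
  have hpth : ∀ i : ℕ → ℕ, Zi i → IPth (GA y) (2 * (k + 1) * r) (zp r x i) := fun i hi => zp_ipth h0 hsb hf hi _
  refine ⟨range s, 2 * (k + 1) * r, zw r W, zd r D, hlen, infinite_range_of_injective hsb.inj, ?_, ?_, ?_, ?_, ?_⟩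
  · unfold zd
    rw [Nat.mul_div_cancel _ h0, Nat.mul_mod_left, Nat.zero_div, Nat.zero_mod, if_pos (by omega), if_pos rfl]
    rfl
  · intro j hj
    obtain ⟨i, hi, -⟩ := zi_avoid' hsb h0 finite_empty
    have h1 := ((hpth i hi).adj j hj.le (j + 1) hj).2 (Or.inl rfl)
    obtain ⟨-, e, h2⟩ := h1
    have h3 := (hrd i hi _).1 j hj
    refine ⟨e, ?_⟩
    rw [← h3.1, ← h3.2]
    exact h2
  · rintro _ ⟨a, rfl⟩ Y hY
    obtain ⟨i, hi, hi0, hiY⟩ := zi_avoid hsb h0 a hY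
    refine ⟨zp r x i, ipth_trunc (hpth i hi) (by omega), ?_, fun j _ hj => hiY j hj, hrd i hi k⟩
    rw [zp_zero h0 hsb hi, hi0]
  · rintro _ ⟨a, rfl⟩ Y hY
    obtain ⟨i, hi, hi0, hiY⟩ := zi_avoid hsb h0 a hY
    refine ⟨zp r x i, ipth_trunc (hpth i hi) (by omega), ?_, fun j _ hj => hiY j hj, ?_⟩
    · rw [zp_zero h0 hsb hi, hi0]
    · exact rd_rev (by omega) (fun j hj => zw_rev h0 W (k + 1) j hj) (fun j hj => zd_rev h0 D (k + 1) j hj) (hrd i hi k)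
  · intro a ha Y hY
    obtain ⟨i, hi, hiY⟩ := zi_avoid' hsb h0 hY
    exact ⟨fun j => zp r x i (a + j), ipth_shift (ipth_trunc (hpth i hi) ha), fun j _ => hiY _, rd_shift (hrd i hi _)⟩

end Pool.H22.DH
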