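import Pool.Agent.H22.DH.Zg

/-!
# Zigzag paths avoiding finite sets (module ZAA)

`zi_avoid`: for `i₀` and a finite set `Y` let `M > i₀` be so large that `x a b c ∉ Y` for `M ≤ a < b`, `c ≤ r`, and
`x i₀ b c ∉ Y` for `b ≥ M`, `0 < c ≤ r` (the paths are disjoint, `s` is injective: only finitely many of them meet
`Y`); `i 0 = i₀`, `i (2 * a + 2) = M + 2 * a`, `i (2 * a + 1) = M + 2 * a + 3`. `zp` avoids `Y` except in its
first point. `zi_avoid'`: all indices `≥ M`.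
-/

set_option autoImplicit false

namespace Pool.H22.DH

open Set Function Pool.H22.D Pool.H22.DI

variable {m : ℕ} {y : Mx (Fin m → Bool)} {r : ℕ} {s : ℕ → ℕ} {x : ℕ → ℕ → ℕ → ℕ}

private theorem za_bd (h : Sbd (GA y) r s x) (v : ℕ) : ∃ B : ℕ,
    (∀ a b c, a < b → 0 < c → c < r → x a b c = v → b < B) ∧ ∀ k, s k = v → k < B := by
  have h1 : ∃ B : ℕ, ∀ a b c, a < b → 0 < c → c < r → x a b c = v → b < B := by
    by_cases he : ∃ a b c, a < b ∧ 0 < c ∧ c < r ∧ x a b c = v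
    · obtain ⟨a, b, c, hab, hc, hcr, hv⟩ := he
      refine ⟨b + 1, fun a' b' c' hab' hc' hcr' hv' => ?_⟩
      obtain ⟨-, h2, -⟩ := h.dis a b a' b' c c' hab hab' hc hcr hc' hcr' (hv.trans hv'.symm)
      omega
    · exact ⟨0, fun a b c hab hc hcr hv => (he ⟨a, b, c, hab, hc, hcr, hv⟩).elim⟩
  have h2 : ∃ B : ℕ, ∀ k, s k = v → k < B := by
    by_cases he : ∃ k, s k = v
    · obtain ⟨k, hk⟩ := he
      refine ⟨k + 1, fun k' hk' => ?_⟩
      have := h.inj (hk'.trans hk.symm)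
      omega
    · exact ⟨0, fun k hk => (he ⟨k, hk⟩).elim⟩
  obtain ⟨B, hB⟩ := h1
  obtain ⟨B', hB'⟩ := h2
  exact ⟨max B B', fun a b c hab hc hcr hv => lt_of_lt_of_le (hB a b c hab hc hcr hv) (le_max_left _ _),
    fun k hk => lt_of_lt_of_le (hB' k hk) (le_max_right _ _)⟩

private theorem za_M (h : Sbd (GA y) r s x) {Y : Set ℕ} (hY : Y.Finite) : ∃ M : ℕ,
    (∀ a b c, a < b → M ≤ b → 0 < c → c ≤ r → x a b c ∉ Y) ∧ ∀ k, M ≤ k → s k ∉ Y := by
  choose B hB using fun v => za_bd h v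
  have h1 : ∀ v ∈ Y, B v ≤ hY.toFinset.sup B := fun v hv =>
    Finset.le_sup (f := B) (hY.mem_toFinset.2 hv)
  have h2 : ∀ k, hY.toFinset.sup B ≤ k → s k ∉ Y := by
    intro k hk hs
    have h3 := (hB (s k)).2 k rfl
    have h4 := h1 _ hs
    omega
  refine ⟨hY.toFinset.sup B, fun a b c hab hM hc hcr hv => ?_, h2⟩
  rcases hcr.lt_or_eq with hlt | rfl
  · have h3 := (hB (x a b c)).1 a b c hab hc hlt rfl
    have h4 := h1 _ hv
    omega
  · rw [h.lst a b hab] at hv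
    exact h2 b hM hv

private theorem za_main (h : Sbd (GA y) r s x) (hr : 0 < r) (i₀ : ℕ) {Y : Set ℕ} {M : ℕ} (hM0 : i₀ < M)
    (hM : ∀ a b c, a < b → M ≤ b → 0 < c → c ≤ r → x a b c ∉ Y) (hs : ∀ k, M ≤ k → s k ∉ Y) :
    ∃ i, Zi i ∧ i 0 = i₀ ∧ ∀ n, 0 < n → zp r x i n ∉ Y := by
  obtain ⟨i, hi⟩ : ∃ i : ℕ → ℕ, ∀ n, i n = if n = 0 then i₀ else if n % 2 = 0 then M + n - 2 else M + n + 2 :=
    ⟨_, fun n => rfl⟩
  have i0 : i 0 = i₀ := by rw [hi, if_pos rfl]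
  have iM : ∀ n, 0 < n → M ≤ i n := by
    intro n hn
    rw [hi, if_neg (by omega)]
    split_ifs <;> omega
  have hZ : Zi i := by
    refine ⟨?_, ?_, ?_⟩
    · intro a b hab
      rw [hi, hi] at hab
      split_ifs at hab <;> omega
    · intro a
      rw [hi (2 * a), hi (2 * a + 1), if_neg (show ¬ (2 * a + 1 = 0) by omega),
        if_neg (show ¬ ((2 * a + 1) % 2 = 0) by omega)]
      by_cases h0 : 2 * a = 0
      · rw [if_pos h0]
        omega
      · rw [if_neg h0, if_pos (show (2 * a) % 2 = 0 by omega)]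
        omega
    · intro a
      rw [hi (2 * a + 2), hi (2 * a + 1), if_neg (by omega), if_pos (by omega), if_neg (by omega), if_neg (by omega)]
      omega
  refine ⟨i, hZ, i0, fun n hn => ?_⟩
  unfold zp
  have hc : n % r < r := Nat.mod_lt n hr
  split_ifs with hp
  · obtain ⟨a, ha⟩ : ∃ a, n / r = 2 * a := ⟨(n / r) / 2, by omega⟩
    rw [ha]
    rcases Nat.eq_zero_or_pos (n % r) with h0 | h0
    · rw [h0, h.fst _ _ (hZ.up a)]
      refine hs _ (iM _ ?_)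
      rw [← ha]
      rcases Nat.eq_zero_or_pos (n / r) with h3 | h3
      · have h4 := Nat.div_add_mod n r
        rw [h3, h0] at h4
        omega
      · exact h3
    · exact hM _ _ _ (hZ.up a) (iM _ (by omega)) h0 hc.le
  · obtain ⟨a, ha⟩ : ∃ a, n / r = 2 * a + 1 := ⟨(n / r) / 2, by omega⟩
    rw [ha]
    exact hM _ _ _ (hZ.dn a) (iM _ (by omega)) (by omega) (by omega)

theorem zi_avoid (h : Sbd (GA y) r s x) (hr : 0 < r) (i₀ : ℕ) {Y : Set ℕ} (hY : Y.Finite) :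
    ∃ i, Zi i ∧ i 0 = i₀ ∧ ∀ n, 0 < n → zp r x i n ∉ Y := by
  obtain ⟨M, hM, hs⟩ := za_M h hY
  exact za_main h hr i₀ (M := max M (i₀ + 1)) (by omega)
    (fun a b c hab hb => hM a b c hab (le_trans (le_max_left _ _) hb))
    (fun k hk => hs k (le_trans (le_max_left _ _) hk))

theorem zi_avoid' (h : Sbd (GA y) r s x) (hr : 0 < r) {Y : Set ℕ} (hY : Y.Finite) :
    ∃ i, Zi i ∧ ∀ n, zp r x i n ∉ Y := by
  obtain ⟨M, hM, hs⟩ := za_M h hY
  obtain ⟨i, hi, hi0, hz⟩ := za_main h hr M (M := M + 1) (by omega)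
    (fun a b c hab hb => hM a b c hab (by omega)) (fun k hk => hs k (by omega))
  refine ⟨i, hi, fun n => ?_⟩
  rcases Nat.eq_zero_or_pos n with rfl | hn
  · have h1 : zp r x i 0 = x (i 0) (i 1) 0 := by
      unfold zp
      rw [Nat.zero_div, if_pos (Nat.zero_mod 2), Nat.zero_mod, Nat.zero_add]
    rw [h1, h.fst _ _ (hi.up 0), hi0]
    exact hs M le_rfl
  · exact hz n hn

end Pool.H22.DH
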