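import Pool.Agent.H22.DH.Df

/-!
# Zigzag paths (module ZG)

`i : ℕ → ℕ` is a sequence of different indices with `i (2 a) < i (2 a + 1)` and `i (2 a + 2) < i (2 a + 1)`. The
path `zp r x i` goes through the vertices `s (i 0), s (i 1), s (i 2), ..`: the block `q = n / r` is the path
`x (i q) (i (q + 1))` forwards if `q` is even and `x (i (q + 1)) (i q)` backwards if `q` is odd (note `x _ _ 0`,
`x _ _ r` are the vertices: `Sbd.fst`, `Sbd.lst`). `zp_ipth`: it is an induced path with `q * r` steps: different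
points (`Sbd.dis`, `Sbd.out`, `Sbd.inj`), consecutive points are adjacent, and there are no other edges by
`Sbd.path` (points of the same block) and `FCl` (points of different blocks; a vertex `s (i a)` belongs to the
blocks `a - 1` and `a`). `zp_rd`: it reads the zigzag word of the word `W`, `D` of the paths `x`.
-/

set_option autoImplicit false

namespace Pool.H22.DH

open Set Function Pool.H22.D Pool.H22.DI

variable {m : ℕ} {y : Mx (Fin m → Bool)} {r : ℕ} {s : ℕ → ℕ} {x : ℕ → ℕ → ℕ → ℕ}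

/-- the zigzag path -/
def zp (r : ℕ) (x : ℕ → ℕ → ℕ → ℕ) (i : ℕ → ℕ) (n : ℕ) : ℕ :=
  if (n / r) % 2 = 0 then x (i (n / r)) (i (n / r + 1)) (n % r)
  else x (i (n / r + 1)) (i (n / r)) (r - n % r)

/-- the zigzag word -/
def zw (r : ℕ) (W : ℕ → Ltr m) (n : ℕ) : Ltr m :=
  if (n / r) % 2 = 0 then W (n % r) else (W (r - 1 - n % r)).swap

/-- the zigzag types -/
def zd (r : ℕ) (D : ℕ → Tv m) (n : ℕ) : Tv m :=
  if (n / r) % 2 = 0 then D (n % r) else D (r - n % r)

/-- sequences of indices for zigzag paths -/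
structure Zi (i : ℕ → ℕ) : Prop where
  inj : Injective i
  up : ∀ a, i (2 * a) < i (2 * a + 1)
  dn : ∀ a, i (2 * a + 2) < i (2 * a + 1)

/-- the block `b` of the zigzag path -/
private def bp (r : ℕ) (x : ℕ → ℕ → ℕ → ℕ) (i : ℕ → ℕ) (b c : ℕ) : ℕ :=
  if b % 2 = 0 then x (i b) (i (b + 1)) c else x (i (b + 1)) (i b) (r - c)

private def lo (i : ℕ → ℕ) (b : ℕ) : ℕ := if b % 2 = 0 then i b else i (b + 1)

private def hi (i : ℕ → ℕ) (b : ℕ) : ℕ := if b % 2 = 0 then i (b + 1) else i b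

private def cc (r b c : ℕ) : ℕ := if b % 2 = 0 then c else r - c

private theorem bp_eq (i : ℕ → ℕ) (b c : ℕ) : bp r x i b c = x (lo i b) (hi i b) (cc r b c) := by
  unfold bp lo hi cc
  split_ifs <;> rfl

private theorem lo_lt {i : ℕ → ℕ} (hi' : Zi i) (b : ℕ) : lo i b < hi i b := by
  unfold lo hi
  split_ifs with h
  · obtain ⟨a, rfl⟩ : ∃ a, b = 2 * a := ⟨b / 2, by omega⟩
    exact hi'.up a
  · obtain ⟨a, rfl⟩ : ∃ a, b = 2 * a + 1 := ⟨b / 2, by omega⟩
    exact hi'.dn a

private theorem cc_pos {r b c : ℕ} (h : 0 < c) (h' : c < r) : 0 < cc r b c ∧ cc r b c < r := by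
  unfold cc
  split_ifs <;> omega

private theorem blk_inj {i : ℕ → ℕ} (hi' : Zi i) {b b' : ℕ} (h1 : lo i b = lo i b') (h2 : hi i b = hi i b') : b = b' := by
  unfold lo at h1
  unfold hi at h2
  split_ifs at h1 h2
  · exact hi'.inj h1
  · have := hi'.inj h1
    have := hi'.inj h2
    omega
  · have := hi'.inj h1
    have := hi'.inj h2
    omega
  · exact hi'.inj h2

private theorem ne_lo_hi {i : ℕ → ℕ} (hi' : Zi i) {b b' : ℕ} (h1 : b ≠ b') (h2 : b ≠ b' + 1) :
    i b ≠ lo i b' ∧ i b ≠ hi i b' := by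
  unfold lo hi
  split_ifs
  · exact ⟨fun h => h1 (hi'.inj h), fun h => h2 (hi'.inj h)⟩
  · exact ⟨fun h => h2 (hi'.inj h), fun h => h1 (hi'.inj h)⟩

private theorem bp_path (h : Sbd (GA y) r s x) {i : ℕ → ℕ} (hi' : Zi i) (b : ℕ) : IPth (GA y) r (bp r x i b) := by
  have h1 := h.path _ _ (lo_lt hi' b)
  by_cases hb : b % 2 = 0
  · have h2 : bp r x i b = x (lo i b) (hi i b) := by
      funext c
      rw [bp_eq]
      unfold cc
      rw [if_pos hb]
    rw [h2]
    exact h1
  · have h2 : bp r x i b = fun c => x (lo i b) (hi i b) (r - c) := by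
      funext c
      rw [bp_eq]
      unfold cc
      rw [if_neg hb]
    rw [h2]
    constructor
    · intro c hc c' hc' e
      have hc : c ≤ r := hc
      have hc' : c' ≤ r := hc'
      have := h1.inj (show r - c ≤ r by omega) (show r - c' ≤ r by omega) e
      omega
    · intro c hc c' hc'
      rw [h1.adj (r - c) (by omega) (r - c') (by omega)]
      omega

private theorem bp_zero (h : Sbd (GA y) r s x) {i : ℕ → ℕ} (hi' : Zi i) (b : ℕ) : bp r x i b 0 = s (i b) := by
  rw [bp_eq]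
  have h1 := lo_lt hi' b
  by_cases hb : b % 2 = 0
  · have h2 : cc r b 0 = 0 := if_pos hb
    rw [h2, h.fst _ _ h1]
    exact congrArg s (if_pos hb)
  · have h2 : cc r b 0 = r := if_neg hb
    rw [h2, h.lst _ _ h1]
    exact congrArg s (if_neg hb)

private theorem bp_last (h : Sbd (GA y) r s x) {i : ℕ → ℕ} (hi' : Zi i) (b : ℕ) : bp r x i b r = s (i (b + 1)) := by
  rw [bp_eq]
  have h1 := lo_lt hi' b
  by_cases hb : b % 2 = 0
  · have h2 : cc r b r = r := if_pos hb
    rw [h2, h.lst _ _ h1]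
    exact congrArg s (if_pos hb)
  · have h2 : cc r b r = 0 := (if_neg hb).trans (Nat.sub_self r)
    rw [h2, h.fst _ _ h1]
    exact congrArg s (if_neg hb)

private theorem bp_inj (h : Sbd (GA y) r s x) {i : ℕ → ℕ} (hi' : Zi i) {b c b' c' : ℕ} (hc : c < r) (hc' : c' < r)
    (e : bp r x i b c = bp r x i b' c') : b = b' ∧ c = c' := by
  have hb : b = b' := by
    rcases Nat.eq_zero_or_pos c with rfl | h0
    · rcases Nat.eq_zero_or_pos c' with rfl | h0'
      · rw [bp_zero h hi', bp_zero h hi'] at e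
        exact hi'.inj (h.inj e)
      · rw [bp_zero h hi', bp_eq] at e
        exact (h.out _ _ _ _ (lo_lt hi' b') (cc_pos h0' hc').1 (cc_pos h0' hc').2 e.symm).elim
    · rcases Nat.eq_zero_or_pos c' with rfl | h0'
      · rw [bp_zero h hi', bp_eq] at e
        exact (h.out _ _ _ _ (lo_lt hi' b) (cc_pos h0 hc).1 (cc_pos h0 hc).2 e).elim
      · rw [bp_eq, bp_eq] at e
        obtain ⟨h1, h2, -⟩ := h.dis _ _ _ _ _ _ (lo_lt hi' b) (lo_lt hi' b') (cc_pos h0 hc).1 (cc_pos h0 hc).2
          (cc_pos h0' hc').1 (cc_pos h0' hc').2 e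
        exact blk_inj hi' h1 h2
  subst hb
  exact ⟨rfl, (bp_path h hi' b).inj (show c ≤ r by omega) (show c' ≤ r by omega) e⟩

private theorem r_ne (h : Sbd (GA y) r s x) (hf : FCl y r s x) : r ≠ 1 := by
  rintro rfl
  have h1 := ((h.path 0 1 (by omega)).adj 0 (by omega) 1 (by omega)).2 (Or.inl rfl)
  rw [h.fst 0 1 (by omega), h.lst 0 1 (by omega)] at h1
  exact hf.ss _ _ h1

/-- no edges between a vertex and an interior point of another block -/
private theorem bp_adj_si (h : Sbd (GA y) r s x) (hf : FCl y r s x) {i : ℕ → ℕ} (hi' : Zi i) {b b' c' : ℕ} (hb : b ≠ b')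
    (h0 : 0 < c') (hc' : c' < r) : (GA y).Adj (bp r x i b 0) (bp r x i b' c') ↔ b = b' + 1 ∧ c' + 1 = r := by
  by_cases hb' : b = b' + 1
  · subst hb'
    rw [bp_zero h hi', ← bp_last h hi' b', (bp_path h hi' b').adj r le_rfl c' hc'.le]
    omega
  · obtain ⟨h1, h2⟩ := ne_lo_hi hi' hb hb'
    constructor
    · intro hadj
      rw [bp_zero h hi', bp_eq] at hadj
      exact (hf.sx _ _ _ _ (lo_lt hi' b') (cc_pos h0 hc').1 (cc_pos h0 hc').2 h1 h2 hadj).elim
    · intro h3
      exact (hb' h3.1).elim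

private theorem bp_adj (h : Sbd (GA y) r s x) (hf : FCl y r s x) {i : ℕ → ℕ} (hi' : Zi i) {b c b' c' : ℕ} (hb : b ≠ b')
    (hc : c < r) (hc' : c' < r) : (GA y).Adj (bp r x i b c) (bp r x i b' c') ↔
      (b' = b + 1 ∧ c + 1 = r ∧ c' = 0) ∨ (b = b' + 1 ∧ c' + 1 = r ∧ c = 0) := by
  have hr := r_ne h hf
  rcases Nat.eq_zero_or_pos c with rfl | h0
  · rcases Nat.eq_zero_or_pos c' with rfl | h0'
    · constructor
      · intro hadj
        rw [bp_zero h hi', bp_zero h hi'] at hadj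
        exact (hf.ss _ _ hadj).elim
      · intro h3
        omega
    · rw [bp_adj_si h hf hi' hb h0' hc']
      omega
  · rcases Nat.eq_zero_or_pos c' with rfl | h0'
    · rw [SimpleGraph.adj_comm, bp_adj_si h hf hi' hb.symm h0 hc]
      omega
    · constructor
      · intro hadj
        rw [bp_eq, bp_eq] at hadj
        refine (hf.xx _ _ _ _ _ _ (lo_lt hi' b) (lo_lt hi' b') (cc_pos h0 hc).1 (cc_pos h0 hc).2
          (cc_pos h0' hc').1 (cc_pos h0' hc').2 (fun e => hb ?_) hadj).elim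
        exact blk_inj hi' (congrArg Prod.fst e) (congrArg Prod.snd e)
      · intro h3
        omega

private theorem succ_iff {r : ℕ} (hr : 0 < r) (n n' : ℕ) : n' = n + 1 ↔ (n / r = n' / r ∧ n' % r = n % r + 1) ∨
    (n' / r = n / r + 1 ∧ n % r + 1 = r ∧ n' % r = 0) := by
  have h1 := Nat.div_add_mod n r
  have h2 := Nat.div_add_mod n' r
  have h3 := Nat.mod_lt n hr
  have h4 := Nat.mod_lt n' hr
  constructor
  · rintro rfl
    by_cases h : n % r + 1 < r
    · left
      have h5 := (Nat.div_mod_unique hr (a := n + 1) (c := n % r + 1) (d := n / r)).2 ⟨by omega, h⟩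
      exact ⟨h5.1.symm, h5.2⟩
    · right
      have h6 : n % r + 1 = r := by omega
      have h5 := (Nat.div_mod_unique hr (a := n + 1) (c := 0) (d := n / r + 1)).2 ⟨by rw [Nat.mul_add]; omega, hr⟩
      exact ⟨h5.1, h6, h5.2⟩
  · rintro (⟨h5, h6⟩ | ⟨h5, h6, h7⟩)
    · rw [← h5] at h2
      omega
    · rw [h5, Nat.mul_add] at h2
      omega

theorem zp_ipth (hr : 0 < r) (h : Sbd (GA y) r s x) (hf : FCl y r s x) {i : ℕ → ℕ} (hi : Zi i)
    (q : ℕ) : IPth (GA y) (q * r) (zp r x i) := by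
  have hz : ∀ n, zp r x i n = bp r x i (n / r) (n % r) := fun n => rfl
  constructor
  · intro n _ n' _ e
    rw [hz, hz] at e
    obtain ⟨h1, h2⟩ := bp_inj h hi (Nat.mod_lt n hr) (Nat.mod_lt n' hr) e
    rw [← Nat.div_add_mod n r, ← Nat.div_add_mod n' r, h1, h2]
  · intro n _ n' _
    have h3 := Nat.mod_lt n hr
    have h4 := Nat.mod_lt n' hr
    rw [hz, hz, succ_iff hr n n', succ_iff hr n' n]
    by_cases hb : n / r = n' / r
    · rw [← hb, (bp_path h hi (n / r)).adj _ h3.le _ h4.le]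
      omega
    · rw [bp_adj h hf hi hb h3 h4]
      omega

end Pool.H22.DH
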